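import Mathlib
import Pool.Agent.Lib.MP_44a246_ntTM.TM05
import Pool.Agent.Lib.MP_44a246_ntMY.MC07

/-!
# T5: no generic sequence of counterexamples
-/

namespace Pool.Agent.Lib.MP_44a246_ntTA

open Pool.Agent.Lib.MP_e52354_nt
open Pool.Agent.Lib.MP_44a246_nt
open Pool.Agent.Lib.MP_44a246_ntL
open Pool.Agent.Lib.MP_44a246_ntS
open Pool.Agent.Lib.MP_44a246_ntSH
open Pool.Agent.Lib.MP_44a246_ntSP
open Pool.Agent.Lib.MP_44a246_ntUV
open Pool.Agent.Lib.MP_44a246_ntTM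
open Pool.Agent.Lib.MP_44a246_ntMY
open WithZero MvPolynomial Module

universe u v w

/-- the identity as a projection -/
theorem projV_id {k : Type*} [Field k] {n : ℕ} (I : Ideal (MvPolynomial (Fin (n + 1)) k)) :
    ProjV (le_refl n) I fun i l => if i = l then 1 else 0 := by
  classical
  refine ⟨fun i l => ?_, fun l => ⟨1, X none - X (some l), ⟨le_rfl, ?_, ?_⟩, ?_⟩⟩
  · rw [Fin.castLE_rfl]
    rfl
  · exact (isHomogeneous_X k none).sub (isHomogeneous_X k (some l))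
  · rw [coeff_sub, coeff_X, coeff_X, if_pos rfl, if_neg, sub_zero]
    intro h
    have h1 := Finsupp.single_left_injective (one_ne_zero (α := ℕ)) h
    exact Option.some_ne_none l h1
  · rw [map_sub, aeval_X, aeval_X]
    simp only [Option.elim_none, Option.elim_some]
    rw [Finset.sum_eq_single l]
    · rw [if_pos rfl, Int.cast_one, C_1, one_mul, sub_self]
      exact zero_mem _
    · intro l' _ hl'
      rw [if_neg (Ne.symm hl'), Int.cast_zero, C_0, zero_mul]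
    · intro h
      exact absurd (Finset.mem_univ l) h

theorem prj_id {L : Type*} [CommRing L] {n : ℕ} (x : Fin (n + 1) → L) :
    prj (fun i l : Fin (n + 1) => if i = l then (1 : ℤ) else 0) x = x := by
  classical
  funext i
  show ∑ l, (((if i = l then (1 : ℤ) else 0 : ℤ)) : L) * x l = x i
  rw [Finset.sum_eq_single i]
  · rw [if_pos rfl, Int.cast_one, one_mul]
  · intro l _ hl
    rw [if_neg (Ne.symm hl), Int.cast_zero, zero_mul]
  · intro h
    exact absurd (Finset.mem_univ i) h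

/-- **No generic sequence of counterexamples.** -/
theorem seq_falseT {κ : Type u} {K : Type v} {Ω : Type v} [Field κ] [IsAlgClosed κ]
    [CharZero κ] [Field K] [CharZero K] [Algebra κ K] [Field Ω] [Algebra K Ω] [Algebra κ Ω]
    [IsScalarTower κ K Ω] [IsAlgClosed Ω] [Algebra.IsAlgebraic K Ω] (hK : IsFF κ K)
    (hMY : MYP.{u, v} κ) {n p m₀ b C r₀ : ℕ} {d : Fin p → ℕ} (hd1 : ∀ j, 1 ≤ d j)
    {A : Finset (Fin p)} {H : Fin p → MvPolynomial (Fin (n + 1)) K}
    (hH : ∀ j, (H j).IsHomogeneous (d j))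
    (ha : AlgebraicIndependent ℚ
      (fun I : {I : Fin p × (Fin (n + 1) →₀ ℕ) // I.2.degree = d I.1} => (H I.1.1).coeff I.1.2))
    {k₂ : Type*} [Field k₂] [CharZero k₂] [Algebra k₂ K] [Algebra k₂ Ω] [IsScalarTower k₂ K Ω]
    (hcoef : ∀ j I, ∃ u : k₂, algebraMap k₂ K u = (H j).coeff I)
    {E : ℕ → IntermediateField (⊥ : IntermediateField K Ω) Ω}
    (hEf : ∀ N, FiniteDimensional (⊥ : IntermediateField K Ω) (E N))
    (hEr : ∀ N, finrank (⊥ : IntermediateField K Ω) (E N) ≤ r₀)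
    {x : ∀ N, Fin (n + 1) → E N} {l : Fin (n + 1)} (hxl : ∀ N, x N l = 1)
    (hFA : ∀ N, ∀ j ∈ A, aeval (x N) (H j) = 0) (hA : ∀ N, ∀ j ∉ A, aeval (x N) (H j) ≠ 0)
    {j : Fin m₀ → Fin (n + 1)}
    (hgen : ∀ G : MvPolynomial (Fin m₀) k₂, G ≠ 0 →
      ∃ N₀, ∀ N ≥ N₀, aeval (fun i => (x N (j i) : Ω)) G ≠ 0)
    {S : ∀ N, Finset (Place κ (E N))}
    (hS : ∀ N, ∀ w : Place κ (E N), w ∉ S N → ∀ j, j ∉ A →
      w.1 (aeval (x N) (H j)) = vmax w.1 (x N) ^ d j)
    {θ ε : ℝ} (hε : 0 < ε)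
    (hθ : θ + ε ≤ (A.card : ℝ) + (∑ j, d j : ℕ) + (max m₀ 1 : ℕ) - (2 * n + 1))
    (hcert : ∀ N, CertV κ b 1 (C : ℤ) (x N))
    (hlarge : ∀ N : ℕ, (N : ℝ) + ramDeg κ (E N) K + (S N).card < θ * height κ (x N)) :
    False := by
  classical
  -- the tower
  let T₀ : ℕ := finrank K (⊥ : IntermediateField K Ω) + ramDeg κ (⊥ : IntermediateField K Ω) K
  have hT1 : 1 ≤ T₀ := by
    have h1 : 0 < finrank K (⊥ : IntermediateField K Ω) := Module.finrank_pos
    exact Nat.le_add_right_of_le h1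
  let W : Tow κ K Ω := {
    L := fun _ => ⊥
    T := fun _ => T₀
    ff := hK
    fin := fun _ => inferInstance
    one_le := fun _ => hT1
    deg := fun _ => Nat.le_add_right _ _
    ram := fun _ => Nat.le_add_left _ _ }
  have hWT : ∀ N, W.T N = T₀ := fun _ => rfl
  have hCT : (C : ℤ) ≤ C * (T₀ : ℤ) := by
    have h1 : (1 : ℤ) ≤ T₀ := by exact_mod_cast hT1
    exact le_mul_of_one_le_right (Int.natCast_nonneg _) h1
  -- positivity
  have hff : ∀ N, IsFF κ (E N) := fun N => (W.ffL N).of_finite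
  have hx0 : ∀ N, x N ≠ 0 := fun N h0 => by
    have h1 := hxl N
    rw [h0] at h1
    simp at h1
  have hh0 : ∀ N, (0 : ℝ) ≤ height κ (x N) := fun N => by
    exact_mod_cast (hff N).height_nonneg (hx0 N)
  have hθ0 : 0 ≤ θ := by
    by_contra hcon
    push Not at hcon
    have h1 := hlarge 0
    have h2 : θ * (height κ (x 0) : ℝ) ≤ 0 := mul_nonpos_of_nonpos_of_nonneg hcon.le (hh0 0)
    have h3 : (0 : ℝ) ≤ ramDeg κ (E 0) K := Nat.cast_nonneg _
    have h4 : (0 : ℝ) ≤ (S 0).card := Nat.cast_nonneg _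
    rw [Nat.cast_zero] at h1
    linarith
  have hbig : ∀ C : ℕ, ¬ ∀ᶠ N in (Filter.hyperfilter ℕ : Filter ℕ),
      height κ (x N) ≤ C * (W.T N : ℤ) := by
    intro C' hC'
    obtain ⟨M, hM⟩ := exists_nat_gt (θ * (C' * T₀))
    obtain ⟨N, hN1, hN2⟩ := (hC'.and (Filter.Eventually.filter_mono
      Nat.hyperfilter_le_atTop (Filter.eventually_ge_atTop M))).exists
    have h1 := hlarge N
    have h3 : (height κ (x N) : ℝ) ≤ C' * T₀ := by
      rw [hWT] at hN1
      exact_mod_cast hN1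
    have h4 : θ * height κ (x N) ≤ θ * (C' * T₀) := mul_le_mul_of_nonneg_left h3 hθ0
    have h5 : (M : ℝ) ≤ N := by exact_mod_cast hN2
    have h6 : (0 : ℝ) ≤ ramDeg κ (E N) K := Nat.cast_nonneg _
    have h7 : (0 : ℝ) ≤ (S N).card := Nat.cast_nonneg _
    linarith
  -- the locus
  let f : A → MvPolynomial (Fin p ⊕ Fin (n + 1)) ℚ := fun i => X (Sum.inl i.1)
  have hf : ∀ i : A, (f i).IsWeightedHomogeneous (Sum.elim d fun _ => 1) (d i.1) := by
    intro i
    exact isWeightedHomogeneous_X ℚ (Sum.elim d fun _ => 1) (Sum.inl i.1)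
  have hfA : ∀ i : A, ∀ j ∉ A, Sum.inl j ∉ (f i).vars := by
    intro i j hj h1
    rw [vars_X, Finset.mem_singleton] at h1
    have h2 : j = i.1 := Sum.inl_injective h1
    rw [h2] at hj
    exact hj i.2
  have hfx : ∀ N (i : A), evK H (x N) (map (algebraMap ℚ K) (f i)) = 0 := by
    intro N i
    rw [map_X]
    unfold evK
    rw [aeval_X, Sum.elim_inl]
    exact hFA N i.1 i.2
  have hrk : ∀ N, ∃ i : A → A, (Matrix.of fun a b : A =>
      evK H (x N) (pderiv (Sum.inl (b : Fin p)) (map (algebraMap ℚ K) (f (i a))))).det ≠ 0 := by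
    intro N
    refine ⟨id, ?_⟩
    have h1 : (Matrix.of fun a b : A =>
        evK H (x N) (pderiv (Sum.inl (b : Fin p)) (map (algebraMap ℚ K) (f (id a))))) = 1 := by
      refine Matrix.ext fun a b => ?_
      rw [Matrix.of_apply, map_X, id, pderiv_X, Matrix.one_apply]
      by_cases hab : a = b
      · rw [if_pos hab, hab, Pi.single_eq_same]
        exact map_one (aeval _)
      · rw [if_neg hab, Pi.single_eq_of_ne]
        · exact map_zero (aeval _)
        · intro h2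
          exact hab (Subtype.ext (Sum.inl_injective h2))
    rw [h1, Matrix.det_one]
    exact one_ne_zero
  obtain ⟨M, γ, i1, i2, i3, B, hM, hγ, hB, hγ0, hk, -⟩ :=
    limit_pairE W (E := E) hEr (r := n) (m₀ := m₀) (b := b) (N₁ := 1) (C := C) le_rfl hd1
      (k := ℚ) (ι := A) (e := fun i => d i.1) (f := f) hf hfA (projV_id _) hH ha (k₂ := k₂)
      (fun u => ⟨algebraMap ℚ k₂ u, (IsScalarTower.algebraMap_apply ℚ k₂ K u).symm⟩) hcoef
      (x := x) hxl hfx hrk hA hgen hbig (fun N => by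
        rw [prj_id, hWT]
        exact CertV.mono le_rfl hCT (hcert N))
  obtain ⟨a, ha'⟩ : ∃ a : ℝ, a = height W.F0 γ := ⟨_, rfl⟩
  have ha1 : 1 ≤ a := by
    rw [ha']
    exact_mod_cast hγ0
  obtain ⟨C', hC'⟩ := limit_MY hMY W (E := E) hEr hM hxl hγ hγ0 hA B
    (fun v hv => (hB v).1 hv) S (Filter.Eventually.of_forall fun N w hw j hj => hS N w hw j hj)
    (ε := a * ε / 2) (by positivity)
  obtain ⟨M', hM'⟩ := exists_nat_gt ((C' : ℝ) * T₀)
  obtain ⟨N, hN1, hN2⟩ := (hC'.and (Filter.Eventually.filter_mono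
    Nat.hyperfilter_le_atTop (Filter.eventually_ge_atTop M'))).exists
  have hl := hlarge N
  rw [hWT, ← ha'] at hN1
  have hkR : ((A.card : ℝ) + (∑ j, d j : ℕ) + (max m₀ 1 : ℕ) - (2 * n + 1)) * a ≤
      (ramDeg W.F0 M (RatFunc W.F0) : ℝ) - 2 * finrank (RatFunc W.F0) M + B.card := by
    rw [ha']
    have h1 := (Rat.cast_le (K := ℝ)).2 hk
    push_cast at h1 ⊢
    exact h1
  obtain ⟨Q, hQ⟩ : ∃ Q : ℝ, Q = (ramDeg W.F0 M (RatFunc W.F0) : ℝ) -
    2 * finrank (RatFunc W.F0) M + B.card := ⟨_, rfl⟩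
  rw [← hQ] at hkR hN1
  obtain ⟨h, hh⟩ : ∃ h : ℝ, h = height κ (x N) := ⟨_, rfl⟩
  have hh1 := hh0 N
  rw [← hh] at hN1 hl hh1
  have h1 : (θ + ε) * a ≤ Q := (mul_le_mul_of_nonneg_right hθ (by linarith)).trans hkR
  have h2 : (θ + ε) * a * h ≤ Q * h := mul_le_mul_of_nonneg_right h1 hh1
  have h3 : a * ((N : ℝ) + ramDeg κ (E N) K + (S N).card) ≤ a * (θ * h) :=
    mul_le_mul_of_nonneg_left hl.le (by linarith)
  have h4 : (0 : ℝ) ≤ a * ε * h := by positivity
  have h5 : (M' : ℝ) ≤ N := by exact_mod_cast hN2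
  have h6 : (N : ℝ) ≤ a * N := le_mul_of_one_le_left (Nat.cast_nonneg _) ha1
  nlinarith

end Pool.Agent.Lib.MP_44a246_ntTA
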