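import Mathlib
import Pool.Agent.Lib.MP_44a246_ntD.D10
import Pool.Agent.Lib.MP_44a246_ntUV.UV09
import Pool.Agent.Lib.MP_44a246_ntUV.UV11s
import Pool.Agent.Lib.MP_44a246_ntUV.UV05a
import Pool.Agent.Lib.MP_44a246_ntTA.TA10

/-!
# T5: the exceptional forms
-/

namespace Pool.Agent.Lib.MP_44a246_ntTA

open Pool.Agent.Lib.MP_e52354_nt
open Pool.Agent.Lib.MP_44a246_nt
open Pool.Agent.Lib.MP_44a246_ntL
open Pool.Agent.Lib.MP_44a246_ntS
open Pool.Agent.Lib.MP_44a246_ntSH
open Pool.Agent.Lib.MP_44a246_ntSP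
open Pool.Agent.Lib.MP_44a246_ntUV
open Pool.Agent.Lib.MP_44a246_ntTM
open Pool.Agent.Lib.MP_44a246_ntMY
open Pool.Agent.Lib.MP_44a246_ntD (countable_adjoin)
open WithZero MvPolynomial Module

universe u v w

/-- `x` (a point over `Ω`) is a counterexample with the constant `N`, up to scaling: the points of
degree at most `r₀` with a curve of bounded height, and of large height. -/
def CexT (κ : Type*) {K Ω : Type*} [Field κ] [Field K] [Algebra κ K] [Field Ω] [Algebra K Ω]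
    [Algebra κ Ω] [IsScalarTower κ K Ω] {n p : ℕ} (d : Fin p → ℕ)
    (H : Fin p → MvPolynomial (Fin (n + 1)) K) (A : Finset (Fin p))
    (b C₂ r₀ : ℕ) (θ : ℝ) (N : ℕ) : Set (Fin (n + 1) → Ω) :=
  {x | ∃ (E : IntermediateField (⊥ : IntermediateField K Ω) Ω)
    (_ : FiniteDimensional (⊥ : IntermediateField K Ω) E) (y : Fin (n + 1) → E)
    (S : Finset (Place κ E)) (s : Ω), s ≠ 0 ∧ (∀ i, x i = s * (y i : Ω)) ∧
    finrank (⊥ : IntermediateField K Ω) E ≤ r₀ ∧
    (∀ j ∈ A, aeval y (H j) = 0) ∧ (∀ j ∉ A, aeval y (H j) ≠ 0) ∧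
    (∀ w ∉ S, ∀ j ∉ A, w.1 (aeval y (H j)) = vmax w.1 y ^ d j) ∧
    CertV κ b 1 (C₂ : ℤ) y ∧ (N : ℝ) + ramDeg κ E K + S.card < θ * height κ y}

/-- **The exceptional forms** for the points of bounded degree with a curve of bounded height. -/
theorem exc_T {κ : Type u} {K : Type v} [Field κ] [IsAlgClosed κ] [CharZero κ] [Field K]
    [CharZero K] [Algebra κ K] (hK : IsFF κ K) (hMY : MYP.{u, v} κ) {n p m₀ b r₀ : ℕ}
    {d : Fin p → ℕ} (hd1 : ∀ j, 1 ≤ d j) {A : Finset (Fin p)}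
    {H : Fin p → MvPolynomial (Fin (n + 1)) K} (hH : ∀ j, (H j).IsHomogeneous (d j))
    (ha : AlgebraicIndependent ℚ
      (fun I : {I : Fin p × (Fin (n + 1) →₀ ℕ) // I.2.degree = d I.1} => (H I.1.1).coeff I.1.2))
    {θ ε : ℝ} (hε : 0 < ε)
    (hθ : θ + ε ≤ (A.card : ℝ) + (∑ j, d j : ℕ) + (max m₀ 1 : ℕ) - (2 * n + 1)) (C₂ : ℕ) :
    ∃ (C s : ℕ) (G : Fin s → MvPolynomial (Fin (n + 1)) K), (∀ i, ∃ E, (G i).IsHomogeneous E) ∧
      ringKrullDim (MvPolynomial (Fin (n + 1)) K ⧸ Ideal.span (Set.range G)) ≤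
        (m₀ : WithBot ℕ∞) ∧
      ∀ (E : IntermediateField (⊥ : IntermediateField K (AlgebraicClosure K))
          (AlgebraicClosure K))
        [FiniteDimensional (⊥ : IntermediateField K (AlgebraicClosure K)) E]
        (x : Fin (n + 1) → E) (S : Finset (Place κ E)),
        finrank (⊥ : IntermediateField K (AlgebraicClosure K)) E ≤ r₀ →
        (∀ j ∈ A, aeval x (H j) = 0) → (∀ j ∉ A, aeval x (H j) ≠ 0) →
        (∀ w ∉ S, ∀ j ∉ A, w.1 (aeval x (H j)) = vmax w.1 x ^ d j) →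
        CertV κ b 1 (C₂ : ℤ) x →
        θ * height κ x ≤ (C : ℝ) + ramDeg κ E K + S.card ∨ ∀ i, aeval x (G i) = 0 := by
  classical
  -- the field of the coefficients
  obtain ⟨k₂, hk₂⟩ : ∃ k₂ : IntermediateField ℚ K, k₂ = IntermediateField.adjoin ℚ
      (⋃ j, Set.range (fun I => (H j).coeff I)) := ⟨_, rfl⟩
  have hk₂c : Countable k₂ := by
    rw [hk₂]
    have h1 : Countable ↑(⋃ j, Set.range (fun I => (H j).coeff I)) :=
      (Set.countable_iUnion fun j => Set.countable_range _).to_subtype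
    exact countable_adjoin _
  have hcoef : ∀ j I, ∃ u : k₂, algebraMap k₂ K u = (H j).coeff I := by
    intro j I
    have h1 : (H j).coeff I ∈ k₂ := by
      rw [hk₂]
      exact IntermediateField.subset_adjoin _ _ (Set.mem_iUnion.2 ⟨j, I, rfl⟩)
    exact ⟨⟨_, h1⟩, rfl⟩
  have hmain := exists_formsV (k := k₂) (K := K) (Ω := AlgebraicClosure K) (m := m₀)
    (P := CexT κ (Ω := AlgebraicClosure K) d H A b C₂ r₀ θ) ?_ ?_ ?_
  · obtain ⟨C, s, G, hG1, hG2, hG3⟩ := hmain
    refine ⟨C, s, G, hG1, hG2, ?_⟩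
    intro E _ x S h1 h2 h3 h4 h5
    by_contra hcon
    rw [not_or, not_le] at hcon
    apply hcon.2
    intro i
    have h6 := hG3 (fun i => (x i : AlgebraicClosure K)) ⟨E, inferInstance, x, S, 1,
      one_ne_zero, fun i => (one_mul _).symm, h1, h2, h3, h4, h5, hcon.1⟩ i
    have h7 : aeval (fun i => (x i : AlgebraicClosure K)) (G i) =
        ((aeval x (G i) : E) : AlgebraicClosure K) :=
      aeval_algebraMap_apply (B := AlgebraicClosure K) x (G i)
    rw [h7] at h6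
    exact Subtype.ext h6
  · rintro N N' hN x ⟨E, hE, y, S, s, h1, h2, h3, h4, h5, h6, h7, h8⟩
    refine ⟨E, hE, y, S, s, h1, h2, h3, h4, h5, h6, h7, lt_of_le_of_lt ?_ h8⟩
    have : (N : ℝ) ≤ N' := by exact_mod_cast hN
    linarith
  · rintro N x ⟨E, hE, y, S, s, hs, hxs, h⟩ t ht
    refine ⟨E, hE, y, S, t * s, mul_ne_zero ht hs, fun i => ?_, h⟩
    show t * x i = _
    rw [hxs i, mul_assoc]
  · intro l j x hx hxl hgen
    choose E hEfin y S s hs hxs hEr hFA hA hS hcert hlarge using hx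
    -- the normalised points
    have hy0 : ∀ N, y N l ≠ 0 := by
      intro N h0
      have h1 := hxs N l
      rw [hxl, h0] at h1
      simp at h1
    have hyx : ∀ N i, ((((y N l)⁻¹ * y N i : E N)) : AlgebraicClosure K) = x N i := by
      intro N i
      have h1 := hxs N l
      rw [hxl] at h1
      have h2 : s N = ((y N l : E N) : AlgebraicClosure K)⁻¹ :=
        eq_inv_of_mul_eq_one_left h1.symm
      rw [hxs N i, h2]
      rfl
    have hx1 : ∀ N, (y N l)⁻¹ * y N l = 1 := fun N => inv_mul_cancel₀ (hy0 N)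
    have hFA' : ∀ N, ∀ j ∈ A, aeval (fun i => (y N l)⁻¹ * y N i) (H j) = 0 := by
      intro N j hj
      rw [aeval_smul_hom (hH j), hFA N j hj, mul_zero]
    have hA' : ∀ N, ∀ j ∉ A, aeval (fun i => (y N l)⁻¹ * y N i) (H j) ≠ 0 := by
      intro N j hj
      rw [aeval_smul_hom (hH j)]
      exact mul_ne_zero (pow_ne_zero _ (inv_ne_zero (hy0 N))) (hA N j hj)
    have hSx : ∀ N, ∀ w : Place κ (E N), w ∉ S N → ∀ j, j ∉ A →
        w.1 (aeval (fun i => (y N l)⁻¹ * y N i) (H j)) =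
          vmax w.1 (fun i => (y N l)⁻¹ * y N i) ^ d j := by
      intro N w hw j hj
      rw [aeval_smul_hom (hH j), map_mul, map_pow, hS N w hw j hj, vmax_smul, mul_pow]
    have hKb : IsFF κ (⊥ : IntermediateField K (AlgebraicClosure K)) := hK.of_finite
    have hlx : ∀ N : ℕ, (N : ℝ) + ramDeg κ (E N) K + (S N).card <
        θ * height κ (fun i => (y N l)⁻¹ * y N i) := by
      intro N
      have := hEfin N
      have hff : IsFF κ (E N) := hKb.of_finite
      rw [hff.height_smul (inv_ne_zero (hy0 N))]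
      exact hlarge N
    have hcx : ∀ N, CertV κ b 1 (C₂ : ℤ) (fun i => (y N l)⁻¹ * y N i) := by
      intro N
      refine CertV.of_smul (r := y N l) (hy0 N) ?_
      have h3 : (fun i => y N l * ((y N l)⁻¹ * y N i)) = y N := by
        funext i
        rw [mul_inv_cancel_left₀ (hy0 N)]
      rw [h3]
      exact hcert N
    refine seq_falseT hK hMY (C := C₂) (b := b) (r₀ := r₀) hd1 hH ha (k₂ := k₂)
      hcoef (E := E) hEfin hEr (x := fun N i => (y N l)⁻¹ * y N i) hx1 hFA' hA' (j := j)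
      (fun G hG => ?_) (S := S) hSx hε hθ hcx hlx
    obtain ⟨N₀, hN₀⟩ := hgen G hG
    refine ⟨N₀, fun N hN => ?_⟩
    have h3 := hN₀ N hN
    have h4 : (fun i => (((y N l)⁻¹ * y N (j i) : E N) : AlgebraicClosure K)) =
        fun i => x N (j i) := funext fun i => hyx N (j i)
    rw [h4]
    exact h3

end Pool.Agent.Lib.MP_44a246_ntTA
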