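import Mathlib
import Pool.Agent.Lib.MP_44a246_ntMY.MV01
import Pool.Agent.Lib.MP_44a246_ntTA.TA11

/-!
# T5: the exceptional forms, for the points over arbitrary extensions
-/

namespace Pool.Agent.Lib.MP_44a246_ntTA

open Pool.Agent.Lib.MP_e52354_nt
open Pool.Agent.Lib.MP_44a246_nt
open Pool.Agent.Lib.MP_44a246_ntL
open Pool.Agent.Lib.MP_44a246_ntSP
open Pool.Agent.Lib.MP_44a246_ntUV
open Pool.Agent.Lib.MP_44a246_ntMY
open WithZero MvPolynomial Module

universe u v w

/-- every finite extension of `K` is isomorphic to a subfield of the algebraic closure of `K` -/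
theorem exists_embedB (κ : Type u) (K : Type v) [Field κ] [Field K] [Algebra κ K]
    (L : Type w) [Field L] [Algebra κ L] [Algebra K L] [IsScalarTower κ K L]
    [FiniteDimensional K L] :
    ∃ (E : IntermediateField (⊥ : IntermediateField K (AlgebraicClosure K))
        (AlgebraicClosure K))
      (_ : FiniteDimensional (⊥ : IntermediateField K (AlgebraicClosure K)) E)
      (e : L ≃ₐ[K] E), (∀ c : κ, e (algebraMap κ L c) = algebraMap κ E c) ∧
      finrank (⊥ : IntermediateField K (AlgebraicClosure K)) E = finrank K L := by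
  classical
  let φ : L →ₐ[K] AlgebraicClosure K := IsAlgClosed.lift
  let E : IntermediateField (⊥ : IntermediateField K (AlgebraicClosure K))
    (AlgebraicClosure K) := IntermediateField.extendScalars (F := ⊥) (E := φ.fieldRange) bot_le
  have hmem : ∀ x, φ x ∈ E := fun x => ⟨x, rfl⟩
  let ψ : L →ₐ[K] E := {
    toFun := fun x => ⟨φ x, hmem x⟩
    map_one' := Subtype.ext (map_one φ)
    map_mul' := fun x y => Subtype.ext (map_mul φ x y)
    map_zero' := Subtype.ext (map_zero φ)
    map_add' := fun x y => Subtype.ext (map_add φ x y)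
    commutes' := fun c => Subtype.ext (φ.commutes c) }
  have hψ : Function.Bijective ψ := by
    constructor
    · exact ψ.toRingHom.injective
    · rintro ⟨y, x, hx⟩
      exact ⟨x, Subtype.ext hx⟩
  let e : L ≃ₐ[K] E := AlgEquiv.ofBijective ψ hψ
  have hfin : FiniteDimensional K E := e.toLinearEquiv.finiteDimensional
  have hfinB : FiniteDimensional (⊥ : IntermediateField K (AlgebraicClosure K)) E :=
    FiniteDimensional.right K (⊥ : IntermediateField K (AlgebraicClosure K)) E
  have h1 : finrank K (⊥ : IntermediateField K (AlgebraicClosure K)) *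
      finrank (⊥ : IntermediateField K (AlgebraicClosure K)) E = finrank K E :=
    finrank_mul_finrank K (⊥ : IntermediateField K (AlgebraicClosure K)) E
  have h2 : finrank K (⊥ : IntermediateField K (AlgebraicClosure K)) = 1 :=
    IntermediateField.finrank_bot
  have h3 : finrank K E = finrank K L := e.toLinearEquiv.finrank_eq.symm
  refine ⟨E, hfinB, e, fun c => ?_, ?_⟩
  · rw [IsScalarTower.algebraMap_apply κ K L]
    refine (e.commutes _).trans ?_
    exact (IsScalarTower.algebraMap_apply κ K E c).symm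
  · rw [h2, one_mul, h3] at h1
    exact h1

/-- **The exceptional forms** for the points of bounded degree with a curve of bounded height. -/
theorem exc_L {κ : Type u} {K : Type v} [Field κ] [IsAlgClosed κ] [CharZero κ] [Field K]
    [CharZero K] [Algebra κ K] (hK : IsFF κ K) (hMY : MYP.{u, v} κ) {n p m₀ b r₀ : ℕ}
    {d : Fin p → ℕ} (hd1 : ∀ j, 1 ≤ d j) {A : Finset (Fin p)}
    {H : Fin p → MvPolynomial (Fin (n + 1)) K} (hH : ∀ j, (H j).IsHomogeneous (d j))
    (ha : AlgebraicIndependent ℚ
      (fun I : {I : Fin p × (Fin (n + 1) →₀ ℕ) // I.2.degree = d I.1} => (H I.1.1).coeff I.1.2))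
    {θ ε : ℝ} (hε : 0 < ε)
    (hθ : θ + ε ≤ (A.card : ℝ) + (∑ j, d j : ℕ) + (max m₀ 1 : ℕ) - (2 * n + 1)) (C₂ : ℕ) :
    ∃ (C s : ℕ) (G : Fin s → MvPolynomial (Fin (n + 1)) K), (∀ i, ∃ E, (G i).IsHomogeneous E) ∧
      ringKrullDim (MvPolynomial (Fin (n + 1)) K ⧸ Ideal.span (Set.range G)) ≤
        (m₀ : WithBot ℕ∞) ∧
      ∀ (L : Type w) [Field L] [Algebra K L] [FiniteDimensional K L] [Algebra κ L]
        [IsScalarTower κ K L] (x : Fin (n + 1) → L) (S : Finset (Place κ L)),
        finrank K L ≤ r₀ →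
        (∀ j ∈ A, aeval x (H j) = 0) → (∀ j ∉ A, aeval x (H j) ≠ 0) →
        (∀ w ∉ S, ∀ j ∉ A, w.1 (aeval x (H j)) = vmax w.1 x ^ d j) →
        CertV κ b 1 (C₂ : ℤ) x →
        θ * height κ x ≤ (C : ℝ) + ramDeg κ L K + S.card ∨ ∀ i, aeval x (G i) = 0 := by
  classical
  obtain ⟨C, s, G, hG1, hG2, hG3⟩ := exc_T hK hMY (m₀ := m₀) (b := b) (r₀ := r₀) hd1 (A := A) hH ha
    hε hθ C₂
  refine ⟨C, s, G, hG1, hG2, ?_⟩
  intro L _ _ _ _ _ x S hr hA hA' hS hcert
  obtain ⟨E, hE, e, heκ, hfr⟩ := exists_embedB κ K L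
  have heK : ∀ c : K, (e : L ≃+* E) (algebraMap K L c) = algebraMap K E c := fun c =>
    e.commutes c
  have heκ' : ∀ c : κ, (e : L ≃+* E) (algebraMap κ L c) = algebraMap κ E c := heκ
  have hev : ∀ F : MvPolynomial (Fin (n + 1)) K,
      aeval (fun i => e (x i)) F = e (aeval x F) := fun F =>
    (MvPolynomial.comp_aeval_apply x (e : L →ₐ[K] E) F).symm
  have hheight : height κ (fun i => e (x i)) = height κ x :=
    height_placeEquiv (e : L ≃+* E) heκ' x
  have hram : ramDeg κ E K = ramDeg κ L K := ramDeg_placeEquiv (e : L ≃+* E) heκ' heK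
  have hcert' : CertV κ b 1 (C₂ : ℤ) (fun i => e (x i)) := by
    refine CertV.map_equiv (e : L ≃+* E) heκ' (fun y => ?_) hcert
    have h1 := height_placeEquiv (e : L ≃+* E) heκ' (![1, y])
    rw [← h1]
    congr 1
    funext i
    fin_cases i
    · exact (map_one e).symm
    · rfl
  have h := hG3 E (fun i => e (x i)) (S.map (placeEquiv (e : L ≃+* E) heκ').toEmbedding)
    (by rw [hfr]; exact hr)
    (fun j hj => by rw [hev, hA j hj, map_zero])
    (fun j hj h0 => hA' j hj (by
      rw [hev] at h0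
      exact (map_eq_zero e).1 h0))
    (fun w hw j hj => by
      obtain ⟨w', rfl⟩ := (placeEquiv (e : L ≃+* E) heκ').surjective w
      have hw' : w' ∉ S := fun h => hw (Finset.mem_map.2 ⟨w', h, rfl⟩)
      have h1 := vmax_placeEquiv (e : L ≃+* E) heκ' w' x
      have h2 := placeEquiv_apply (e : L ≃+* E) heκ' w' (aeval x (H j))
      rw [hev]
      refine (h2.trans (hS w' hw' j hj)).trans ?_
      rw [← h1]
      rfl)
    hcert'
  rw [hheight, hram, Finset.card_map] at h
  refine h.imp id fun h1 i => ?_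
  have h2 := h1 i
  rw [hev] at h2
  exact (map_eq_zero e).1 h2

end Pool.Agent.Lib.MP_44a246_ntTA
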