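import Mathlib

/-!
# T5: one form for finitely many small closed sets
-/

namespace Pool.Agent.Lib.MP_44a246_ntTA

open MvPolynomial

universe u v w

/-- the height of the irrelevant ideal -/
theorem height_irrelevant (K : Type*) [Field K] (n : ℕ) :
    ∃ P : Ideal (MvPolynomial (Fin n) K), P.IsPrime ∧ (∀ j, X j ∈ P) ∧
      (∀ F : MvPolynomial (Fin n) K, aeval (fun _ : Fin n => (0 : MvPolynomial (Fin n) K)) F = 0 →
        F ∈ P) ∧ (n : ℕ∞) ≤ P.height := by
  classical
  let φ : ℕ → MvPolynomial (Fin n) K →ₐ[K] MvPolynomial (Fin n) K := fun i =>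
    aeval fun j => if (j : ℕ) < i then 0 else X j
  have hprime : ∀ i, (RingHom.ker (φ i)).IsPrime := fun i => RingHom.ker_isPrime (φ i)
  have hX : ∀ i (j : Fin n), (j : ℕ) < i → X j ∈ RingHom.ker (φ i) := by
    intro i j hj
    rw [RingHom.mem_ker]
    show aeval _ (X j) = _
    rw [aeval_X, if_pos hj]
  have hX' : ∀ i (j : Fin n), ¬ (j : ℕ) < i → X j ∉ RingHom.ker (φ i) := by
    intro i j hj
    rw [RingHom.mem_ker]
    show ¬ aeval _ (X j) = _
    rw [aeval_X, if_neg hj]
    exact X_ne_zero j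
  have hcomp : ∀ i, φ (i + 1) = (φ (i + 1)).comp (φ i) := by
    intro i
    refine algHom_ext fun j => ?_
    show aeval _ (X j) = (φ (i + 1)) (aeval _ (X j))
    rw [aeval_X, aeval_X]
    by_cases h : (j : ℕ) < i
    · rw [if_pos h, if_pos (by omega), map_zero]
    · rw [if_neg h]
      show _ = aeval _ (X j)
      rw [aeval_X]
  have hle : ∀ i, RingHom.ker (φ i) ≤ RingHom.ker (φ (i + 1)) := by
    intro i F hF
    rw [RingHom.mem_ker] at hF ⊢
    rw [hcomp i, AlgHom.comp_apply, hF, map_zero]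
  have hht : ∀ i : ℕ, i ≤ n → (i : ℕ∞) ≤ (RingHom.ker (φ i)).height := by
    intro i
    induction i with
    | zero => intro _; exact zero_le
    | succ i ih =>
      intro hi
      have h1 := hprime i
      have h2 := hprime (i + 1)
      have h3 : RingHom.ker (φ i) < RingHom.ker (φ (i + 1)) := by
        refine lt_of_le_of_ne (hle i) fun h => ?_
        have h4 := hX (i + 1) ⟨i, hi⟩ (Nat.lt_succ_self i)
        rw [← h] at h4
        exact hX' i ⟨i, hi⟩ (lt_irrefl _) h4
      have h5 := Ideal.height_add_one_le_of_lt_of_isPrime h3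
      refine le_trans ?_ h5
      push_cast
      exact add_le_add_left (ih (by omega)) 1
  refine ⟨RingHom.ker (φ n), hprime n, fun j => hX n j j.2, fun F hF => ?_, hht n le_rfl⟩
  rw [RingHom.mem_ker]
  have h1 : φ n = aeval (fun _ : Fin n => (0 : MvPolynomial (Fin n) K)) := by
    refine algHom_ext fun j => ?_
    show aeval _ (X j) = aeval _ (X j)
    rw [aeval_X, aeval_X, if_pos j.2]
  rw [h1]
  exact hF

/-- a form of positive degree vanishes at the origin -/
theorem aeval_zero_of_hom {K R : Type*} [Field K] [CommRing R] [Algebra K R] {n d : ℕ}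
    {F : MvPolynomial (Fin n) K} (hF : F.IsHomogeneous d) (hd : 1 ≤ d) :
    aeval (fun _ : Fin n => (0 : R)) F = 0 := by
  have h0 : (fun _ : Fin n => (0 : R)) = 0 := rfl
  rw [h0, aeval_zero]
  have h1 : F.coeff 0 = 0 := hF.coeff_eq_zero (by
    rw [map_zero]
    omega)
  rw [← constantCoeff_eq] at h1
  rw [h1, map_zero]

/-- **A large component of an intersection of few hypersurfaces.** -/
theorem exists_big_prime {K : Type*} [Field K] {n p : ℕ} {d : Fin p → ℕ} {A : Finset (Fin p)}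
    (hA : A.card ≤ n) {F : Fin p → MvPolynomial (Fin (n + 1)) K}
    (hF : ∀ j, (F j).IsHomogeneous (d j)) (hd : ∀ j, 1 ≤ d j) :
    ∃ P : Ideal (MvPolynomial (Fin (n + 1)) K), P.IsPrime ∧ (∀ j ∈ A, F j ∈ P) ∧
      (∃ l, X l ∉ P) ∧
      ∀ J : Ideal (MvPolynomial (Fin (n + 1)) K),
        ringKrullDim (MvPolynomial (Fin (n + 1)) K ⧸ J) ≤ ((n - A.card : ℕ) : WithBot ℕ∞) →
        ¬ J ≤ P := by
  classical
  obtain ⟨P₁, hP₁, hPX, hP₁F, hP₁h⟩ := height_irrelevant K (n + 1)
  have hs : (F '' (A : Set (Fin p))) ⊆ P₁ := by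
    rintro G ⟨j, -, rfl⟩
    exact hP₁F _ (aeval_zero_of_hom (hF j) (hd j))
  have h1 := Ideal.height_le_ringKrullDim_quotient_add_encard _ hs
  obtain ⟨I, hI⟩ : ∃ I, I = Ideal.span (F '' (A : Set (Fin p))) := ⟨_, rfl⟩
  rw [← hI] at h1
  have hcard : (F '' (A : Set (Fin p))).encard ≤ (A.card : ℕ∞) := by
    refine (Set.encard_image_le _ _).trans ?_
    rw [Set.encard_coe_eq_coe_finsetCard]
  have h2 : ((n + 1 - A.card : ℕ) : WithBot ℕ∞) ≤ ringKrullDim (MvPolynomial (Fin (n + 1)) K ⧸ I) := by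
    have h3 : ((n + 1 : ℕ) : WithBot ℕ∞) ≤
        ringKrullDim (MvPolynomial (Fin (n + 1)) K ⧸ I) + (A.card : ℕ) := by
      refine le_trans ?_ (h1.trans ?_)
      · exact_mod_cast hP₁h
      · gcongr
        exact_mod_cast hcard
    have hnt : Nontrivial (MvPolynomial (Fin (n + 1)) K ⧸ I) := by
      refine Ideal.Quotient.nontrivial_iff.2 fun h => ?_
      apply hP₁.ne_top
      rw [eq_top_iff, ← h, hI]
      exact Ideal.span_le.2 hs
    have h4 : ringKrullDim (MvPolynomial (Fin (n + 1)) K ⧸ I) ≠ ⊥ := fun h => by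
      have h5 := ringKrullDim_nonneg_of_nontrivial (R := MvPolynomial (Fin (n + 1)) K ⧸ I)
      rw [h] at h5
      simp at h5
    obtain ⟨D, hD⟩ := WithBot.ne_bot_iff_exists.1 h4
    rw [← hD] at h3 ⊢
    rcases eq_or_ne D ⊤ with rfl | hDt
    · exact_mod_cast le_top
    · obtain ⟨D', rfl⟩ := ENat.ne_top_iff_exists.1 hDt
      have h5 : n + 1 ≤ D' + A.card := by exact_mod_cast h3
      have h6 : n + 1 - A.card ≤ D' := by omega
      exact WithBot.coe_le_coe.2 (Nat.cast_le.2 h6)
  rw [ringKrullDim_quotient, Order.le_krullDim_iff] at h2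
  obtain ⟨l, hl⟩ := h2
  have hkey : ∀ J : Ideal (MvPolynomial (Fin (n + 1)) K), J ≤ l.head.1.asIdeal →
      ((n + 1 - A.card : ℕ) : WithBot ℕ∞) ≤ ringKrullDim (MvPolynomial (Fin (n + 1)) K ⧸ J) := by
    intro J hJ
    rw [ringKrullDim_quotient, Order.le_krullDim_iff]
    refine ⟨⟨l.length, fun i => ⟨(l i).1, ?_⟩, fun i => ?_⟩, hl⟩
    · rw [PrimeSpectrum.mem_zeroLocus]
      have h3 : l.head ≤ l i := LTSeries.head_le l i
      have h4 : l.head.1.asIdeal ≤ (l i).1.asIdeal := h3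
      exact fun a ha => h4 (hJ ha)
    · exact l.step i
  refine ⟨l.head.1.asIdeal, l.head.1.isPrime, fun j hj => ?_, ?_, fun J hJ hJP => ?_⟩
  · have h3 := l.head.2
    rw [PrimeSpectrum.mem_zeroLocus] at h3
    apply h3
    rw [hI]
    exact Ideal.subset_span ⟨j, hj, rfl⟩
  · by_contra hcon
    push Not at hcon
    have h3 := hkey l.head.1.asIdeal le_rfl
    have h4 : l.head.1.asIdeal.IsMaximal := by
      have h5 : RingHom.ker (aeval (fun _ : Fin (n + 1) => (0 : K)) :
          MvPolynomial (Fin (n + 1)) K →ₐ[K] K) ≤ l.head.1.asIdeal := by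
        intro G hG
        rw [RingHom.mem_ker] at hG
        have h0 : (fun _ : Fin (n + 1) => (0 : K)) = 0 := rfl
        rw [h0, aeval_zero, Algebra.algebraMap_self, RingHom.id_apply, constantCoeff_eq] at hG
        have h6 : G ∈ Ideal.span (X '' (Set.univ : Set (Fin (n + 1)))) := by
          rw [mem_ideal_span_X_image]
          intro m hm
          have h7 : m ≠ 0 := by
            rintro rfl
            exact (mem_support_iff.1 hm) hG
          obtain ⟨i, hi⟩ := Finsupp.ne_iff.1 h7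
          exact ⟨i, Set.mem_univ i, hi⟩
        refine (Ideal.span_le.2 ?_) h6
        rintro G ⟨i, -, rfl⟩
        exact hcon i
      have h8 : (RingHom.ker (aeval (fun _ : Fin (n + 1) => (0 : K)) :
          MvPolynomial (Fin (n + 1)) K →ₐ[K] K)).IsMaximal :=
        RingHom.ker_isMaximal_of_surjective _ (fun a => ⟨C a, by
          show aeval _ (C a) = a
          rw [aeval_C]
          rfl⟩)
      rw [← h8.eq_of_le l.head.1.isPrime.ne_top h5]
      exact h8
    have h9 : ringKrullDim (MvPolynomial (Fin (n + 1)) K ⧸ l.head.1.asIdeal) = 0 := by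
      let _ := Ideal.Quotient.field l.head.1.asIdeal
      exact ringKrullDim_eq_zero_of_field _
    rw [h9] at h3
    have h10 : n + 1 - A.card ≤ 0 := by exact_mod_cast h3
    omega
  · have h3 := (hkey J hJP).trans hJ
    have h4 : n + 1 - A.card ≤ n - A.card := by exact_mod_cast h3
    omega

/-- **One form for finitely many small closed sets.** -/
theorem exists_G {K : Type u} [Field K] {n p : ℕ} {d : Fin p → ℕ} {A : Finset (Fin p)}
    (hA : A.card ≤ n) {F : Fin p → MvPolynomial (Fin (n + 1)) K}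
    (hF : ∀ j, (F j).IsHomogeneous (d j)) (hd : ∀ j, 1 ≤ d j)
    {ι : Type*} [Fintype ι] (s : ι → ℕ) (G : ∀ i, Fin (s i) → MvPolynomial (Fin (n + 1)) K)
    (hGh : ∀ i t, ∃ e, (G i t).IsHomogeneous e)
    (hdim : ∀ i, ringKrullDim (MvPolynomial (Fin (n + 1)) K ⧸ Ideal.span (Set.range (G i))) ≤
      ((n - A.card : ℕ) : WithBot ℕ∞)) :
    ∃ G₀ : MvPolynomial (Fin (n + 1)) K, (∃ e, G₀.IsHomogeneous e) ∧
      (∃ z : Fin (n + 1) → AlgebraicClosure K, z ≠ 0 ∧
        (∀ j ∈ A, aeval z (F j) = 0) ∧ aeval z G₀ ≠ 0) ∧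
      ∀ (L : Type w) [Field L] [Algebra K L] (x : Fin (n + 1) → L) (i : ι),
        (∀ t, aeval x (G i t) = 0) → aeval x G₀ = 0 := by
  classical
  obtain ⟨P, hP, hPF, ⟨l, hl⟩, hPJ⟩ := exists_big_prime hA hF hd
  have h1 : ∀ i, ∃ t, G i t ∉ P := by
    intro i
    by_contra hcon
    push Not at hcon
    refine hPJ _ (hdim i) (Ideal.span_le.2 ?_)
    rintro _ ⟨t, rfl⟩
    exact hcon t
  choose t ht using h1
  choose e he using hGh
  refine ⟨(∏ i, G i (t i)) * X l, ⟨(∑ i, e i (t i)) + 1, ?_⟩, ?_, ?_⟩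
  · exact (IsHomogeneous.prod _ _ _ fun i _ => he i (t i)).mul (isHomogeneous_X _ _)
  · have h2 : (∏ i, G i (t i)) * X l ∉ P := by
      intro h3
      rcases hP.mem_or_mem h3 with h4 | h4
      · obtain ⟨i, -, hi⟩ := (Ideal.IsPrime.prod_mem_iff (p := P) (hp := hP)).1 h4
        exact ht i hi
      · exact hl h4
    rw [← MvPolynomial.IsPrime.vanishingIdeal_zeroLocus (K := AlgebraicClosure K) P,
      mem_vanishingIdeal_iff] at h2
    push Not at h2
    obtain ⟨z, hz, hz2⟩ := h2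
    refine ⟨z, ?_, fun j hj => hz _ (hPF j hj), hz2⟩
    rintro rfl
    apply hz2
    rw [map_mul, aeval_X, Pi.zero_apply, mul_zero]
  · intro L _ _ x i hi
    rw [map_mul, map_prod, Finset.prod_eq_zero (Finset.mem_univ i) (hi (t i)), zero_mul]

end Pool.Agent.Lib.MP_44a246_ntTA
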