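import Mathlib
import Pool.Agent.Lib.MP_44a246_ntL.LTrans
import Pool.Agent.Lib.MP_44a246_ntSP.TP02

/-!
# T5: from a finite extension to the field of the point
-/

namespace Pool.Agent.Lib.MP_44a246_ntTA

open Pool.Agent.Lib.MP_e52354_nt
open Pool.Agent.Lib.MP_44a246_nt
open Pool.Agent.Lib.MP_44a246_ntL
open WithZero Module

universe u v w

section Tower

variable {κ K L M : Type*} [Field κ] [IsAlgClosed κ] [CharZero κ] [Field K] [Algebra κ K]
  [Field L] [Algebra κ L] [Algebra K L] [IsScalarTower κ K L] [FiniteDimensional K L]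
  [Field M] [Algebra κ M] [Algebra K M] [IsScalarTower κ K M] [FiniteDimensional K M]
  [Algebra L M] [IsScalarTower κ L M] [IsScalarTower K L M] [FiniteDimensional L M]

/-- the ramification in a tower -/
theorem ramDeg_trans_eq (hK : IsFF κ K) :
    ramDeg κ M K = ramDeg κ M L + Module.finrank L M * ramDeg κ L K := by
  classical
  have hL : IsFF κ L := hK.of_finite
  have hM : IsFF κ M := hK.of_finite
  choose S hS1 hS2 hS3 using fun v : Place κ L => hM.exists_over (K := L) v
  have key : ∀ w : Place κ M, ramIdx K w.1 - 1 =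
      (ramIdx L w.1 - 1) + ramIdx L w.1 * (ramIdx K (below L w).1 - 1) := by
    intro w
    have h1 := one_le_ramIdx (K := L) w.1 w.2.1
    have h2 := one_le_ramIdx (K := K) (below L w).1 (below L w).2.1
    rw [ramIdx_mul (K := K) (L := L) w]
    obtain ⟨a, ha⟩ := Nat.exists_eq_add_of_le h1
    obtain ⟨b, hb⟩ := Nat.exists_eq_add_of_le h2
    rw [ha, hb]
    simp only [Nat.add_sub_cancel_left]
    have : (1 + a) * (1 + b) = 1 + (a + (1 + a) * b) := by ring
    rw [this, Nat.add_sub_cancel_left]
  have hfinL : {v : Place κ L | ramIdx K v.1 ≠ 1}.Finite := hL.ramIdx_finite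
  have hfinM : {v : Place κ M | ramIdx L v.1 ≠ 1}.Finite := hM.ramIdx_finite
  have hsupp1 : (Function.support fun w : Place κ M => ramIdx L w.1 - 1).Finite := by
    refine hfinM.subset fun w hw h => hw ?_
    simp only [h, Nat.sub_self]
  have hg0 : ∀ w : Place κ M, below L w ∉ hfinL.toFinset →
      ramIdx L w.1 * (ramIdx K (below L w).1 - 1) = 0 := by
    intro w hw
    have h1 : ramIdx K (below L w).1 = 1 := by
      by_contra h2
      exact hw (hfinL.mem_toFinset.2 h2)
    rw [h1, Nat.sub_self, mul_zero]
  have hsub : (Function.support fun w : Place κ M =>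
      ramIdx L w.1 * (ramIdx K (below L w).1 - 1)) ⊆
      ((hfinL.toFinset.biUnion S : Finset (Place κ M)) : Set (Place κ M)) := by
    intro w hw
    rw [Finset.mem_coe, Finset.mem_biUnion]
    refine ⟨below L w, ?_, (hS2 _ w).2 rfl⟩
    by_contra h
    exact hw (hg0 w h)
  have hsupp2 : (Function.support fun w : Place κ M =>
      ramIdx L w.1 * (ramIdx K (below L w).1 - 1)).Finite :=
    (Finset.finite_toSet _).subset hsub
  have e1 : ramDeg κ M K = ramDeg κ M L +
      ∑ᶠ w : Place κ M, ramIdx L w.1 * (ramIdx K (below L w).1 - 1) := by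
    rw [ramDeg, ramDeg, ← finsum_add_distrib hsupp1 hsupp2]
    exact finsum_congr key
  have e2 : ∑ᶠ w : Place κ M, ramIdx L w.1 * (ramIdx K (below L w).1 - 1) =
      Module.finrank L M * ramDeg κ L K := by
    have hsub2 : (Function.support fun v : Place κ L => ramIdx K v.1 - 1) ⊆
        ((hfinL.toFinset : Finset (Place κ L)) : Set (Place κ L)) := by
      intro v hv
      rw [Finset.mem_coe, hfinL.mem_toFinset]
      intro h
      exact hv (by simp only [h, Nat.sub_self])
    rw [finsum_eq_sum_of_support_subset _ hsub, ramDeg, finsum_eq_sum_of_support_subset _ hsub2,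
      Finset.sum_biUnion, Finset.mul_sum]
    · refine Finset.sum_congr rfl fun v _ => ?_
      have h1 : ∀ w ∈ S v, ramIdx L w.1 * (ramIdx K (below L w).1 - 1) =
          ramIdx L w.1 * (ramIdx K v.1 - 1) := by
        intro w hw
        rw [(hS2 v w).1 hw]
      rw [Finset.sum_congr rfl h1, ← Finset.sum_mul]
      congr 1
      have := hS3 v
      exact_mod_cast this
    · intro v _ v' _ hvv'
      rw [Function.onFun, Finset.disjoint_left]
      intro w hw hw'
      exact hvv' (((hS2 v w).1 hw).symm.trans ((hS2 v' w).1 hw'))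
  rw [e1, e2]

omit [Algebra K L] [IsScalarTower κ K L] [FiniteDimensional K L] [IsScalarTower K L M]
  [Algebra K M] [IsScalarTower κ K M] [FiniteDimensional K M] [Field K] [Algebra κ K] in
/-- the places above a finite set of places, counted with the ramification -/
theorem count_above (hM : IsFF κ M) (T : Set (Place κ L)) (hT : T.Finite) :
    Module.finrank L M * T.ncard ≤
      {w : Place κ M | below L w ∈ T}.ncard + ramDeg κ M L := by
  classical
  choose S hS1 hS2 hS3 using fun v : Place κ L => hM.exists_over (K := L) v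
  have hset : {w : Place κ M | below L w ∈ T} = ((hT.toFinset.biUnion S : Finset (Place κ M)) :
      Set (Place κ M)) := by
    ext w
    rw [Set.mem_ofPred_eq, Finset.mem_coe, Finset.mem_biUnion]
    constructor
    · intro h
      exact ⟨below L w, hT.mem_toFinset.2 h, (hS2 _ w).2 rfl⟩
    · rintro ⟨v, hv, hw⟩
      rw [(hS2 v w).1 hw]
      exact hT.mem_toFinset.1 hv
  have hfinM : {v : Place κ M | ramIdx L v.1 ≠ 1}.Finite := hM.ramIdx_finite
  have h1 : Module.finrank L M * T.ncard =
      ∑ w ∈ hT.toFinset.biUnion S, ramIdx L w.1 := by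
    rw [Finset.sum_biUnion]
    · have h2 : ∀ v ∈ hT.toFinset, ∑ w ∈ S v, ramIdx L w.1 = Module.finrank L M := by
        intro v _
        exact_mod_cast hS3 v
      rw [Finset.sum_congr rfl h2, Finset.sum_const, smul_eq_mul, mul_comm,
        Set.ncard_eq_toFinset_card T hT]
    · intro v _ v' _ hvv'
      rw [Function.onFun, Finset.disjoint_left]
      intro w hw hw'
      exact hvv' (((hS2 v w).1 hw).symm.trans ((hS2 v' w).1 hw'))
  have h2 : ∀ w : Place κ M, ramIdx L w.1 = 1 + (ramIdx L w.1 - 1) := by
    intro w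
    have := one_le_ramIdx (K := L) w.1 w.2.1
    omega
  rw [hset, Set.ncard_coe_finset, h1, Finset.sum_congr rfl fun w _ => h2 w,
    Finset.sum_add_distrib, Finset.sum_const, smul_eq_mul, mul_one]
  refine Nat.add_le_add_left ?_ _
  have h3 : (Function.support fun w : Place κ M => ramIdx L w.1 - 1) ⊆
      ((hfinM.toFinset ∪ hT.toFinset.biUnion S : Finset (Place κ M)) : Set (Place κ M)) := by
    intro w hw
    rw [Finset.mem_coe, Finset.mem_union]
    left
    rw [hfinM.mem_toFinset]
    intro h
    exact hw (by simp only [h, Nat.sub_self])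
  rw [ramDeg, finsum_eq_sum_of_support_subset _ h3]
  exact Finset.sum_le_sum_of_subset Finset.subset_union_right

end Tower

section Model

variable {K : Type v} {L : Type w} [Field K] [Field L] [Algebra K L]

/-- **the model of a point over its own field** -/
theorem exists_model {n : ℕ} {x : Fin (n + 1) → L} (hx : x ≠ 0) :
    ∃ (y : Fin (n + 1) → pointField K x) (c : L), c ≠ 0 ∧ (∀ i, x i = c * (y i : L)) ∧ y ≠ 0 ∧
      pointField K y = ⊤ := by
  classical
  obtain ⟨l, hl⟩ := Function.ne_iff.1 hx
  rw [Pi.zero_apply] at hl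
  have hmem : ∀ i j, x i / x j ∈ pointField K x := fun i j =>
    IntermediateField.subset_adjoin _ _ ⟨i, j, rfl⟩
  let y : Fin (n + 1) → pointField K x := fun i => ⟨x i / x l, hmem i l⟩
  have hy : ∀ i, ((y i : pointField K x) : L) = x i / x l := fun i => rfl
  have hyy : ∀ i j, ((y i / y j : pointField K x) : L) = x i / x j := by
    intro i j
    show (x i / x l) / (x j / x l) = x i / x j
    rw [div_div_div_cancel_right₀ hl]
  refine ⟨y, x l, hl, fun i => ?_, ?_, ?_⟩
  · rw [hy, mul_div_cancel₀ _ hl]
  · intro h0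
    have h1 := congrFun h0 l
    have h2 := hy l
    rw [h1, Pi.zero_apply, div_self hl] at h2
    exact zero_ne_one h2
  · have h1 : (pointField K y).map (pointField K x).val = pointField K x := by
      unfold pointField
      rw [IntermediateField.adjoin_map]
      congr 1
      ext z
      rw [Set.mem_image]
      constructor
      · rintro ⟨_, ⟨i, j, rfl⟩, rfl⟩
        exact ⟨i, j, hyy i j⟩
      · rintro ⟨i, j, rfl⟩
        exact ⟨y i / y j, ⟨i, j, rfl⟩, hyy i j⟩
    rw [eq_top_iff]
    intro z _
    have h2 : (z : L) ∈ (pointField K y).map (pointField K x).val := by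
      rw [h1]
      exact z.2
    obtain ⟨z', hz', hz2⟩ := h2
    have h3 : z' = z := Subtype.ext hz2
    rw [← h3]
    exact hz'

end Model

end Pool.Agent.Lib.MP_44a246_ntTA
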