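import Mathlib
import Pool.Agent.Lib.MP_44a246_ntUV.UV11s
import Pool.Agent.Lib.MP_44a246_ntTA.TA13

/-!
# T5: the inequality for the points of bounded degree
-/

namespace Pool.Agent.Lib.MP_44a246_ntTA

open Pool.Agent.Lib.MP_e52354_nt
open Pool.Agent.Lib.MP_44a246_nt
open Pool.Agent.Lib.MP_44a246_ntL
open Pool.Agent.Lib.MP_44a246_ntUV (aeval_smul_hom)
open WithZero MvPolynomial Module

universe u v w

/-- **Vojta's inequality for the points of degree at most `r`** of `X = {F_j = 0, j ∈ A}`, outside
of a proper closed subset. -/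
def DegAt (κ : Type u) {K : Type v} [Field κ] [Field K] [Algebra κ K] {n p : ℕ}
    (d : Fin p → ℕ) (A : Finset (Fin p)) (F : Fin p → MvPolynomial (Fin (n + 1)) K)
    (S : Set (Place κ K)) (r : ℕ) (ε : ℝ) : Prop :=
  ∃ G : MvPolynomial (Fin (n + 1)) K, (∃ e, G.IsHomogeneous e) ∧
    (∃ z : Fin (n + 1) → AlgebraicClosure K, z ≠ 0 ∧ (∀ j ∈ A, aeval z (F j) = 0) ∧
      aeval z G ≠ 0) ∧
    ∃ C : ℕ, ∀ (L : Type w) [Field L] [Algebra K L] [FiniteDimensional K L] [Algebra κ L]
      [IsScalarTower κ K L] (x : Fin (n + 1) → L), finrank K L ≤ r → x ≠ 0 →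
      (∀ j ∈ A, aeval x (F j) = 0) →
        (((∑ j, d j : ℕ) : ℝ) - n - 1 - ε) * height κ x ≤
            truncCount κ F d S x + ramDeg κ L K + C ∨
          aeval x G = 0

/-- the same for the points which generate the field `L` -/
def DegTopAt (κ : Type u) {K : Type v} [Field κ] [Field K] [Algebra κ K] {n p : ℕ}
    (d : Fin p → ℕ) (A : Finset (Fin p)) (F : Fin p → MvPolynomial (Fin (n + 1)) K)
    (S : Set (Place κ K)) (r : ℕ) (ε : ℝ) : Prop :=
  ∃ G : MvPolynomial (Fin (n + 1)) K, (∃ e, G.IsHomogeneous e) ∧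
    (∃ z : Fin (n + 1) → AlgebraicClosure K, z ≠ 0 ∧ (∀ j ∈ A, aeval z (F j) = 0) ∧
      aeval z G ≠ 0) ∧
    ∃ C : ℕ, ∀ (L : Type w) [Field L] [Algebra K L] [FiniteDimensional K L] [Algebra κ L]
      [IsScalarTower κ K L] (x : Fin (n + 1) → L), finrank K L ≤ r → x ≠ 0 →
      pointField K x = ⊤ → (∀ j ∈ A, aeval x (F j) = 0) →
        (((∑ j, d j : ℕ) : ℝ) - n - 1 - ε) * height κ x ≤
            truncCount κ F d S x + ramDeg κ L K + C ∨
          aeval x G = 0

/-- the maximum of the coordinates in a finite extension -/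
theorem vmax_ext {κ K L : Type*} [Field κ] [Field K] [Algebra κ K] [Field L] [Algebra κ L]
    [Algebra K L] [IsScalarTower κ K L] [Algebra.IsAlgebraic K L] {σ : Type*} [Fintype σ]
    (w : Place κ L) (x : σ → K) :
    vmax w.1 (fun i => algebraMap K L (x i)) = vmax (below K w).1 x ^ ramIdx K w.1 := by
  unfold vmax
  apply le_antisymm
  · refine Finset.sup_le fun i _ => ?_
    rw [below_pow]
    exact pow_le_pow_left' (Finset.le_sup (f := fun i => (below K w).1 (x i)) (Finset.mem_univ i)) _
  · rcases isEmpty_or_nonempty σ with hσ | hσ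
    · have he := one_le_ramIdx (K := K) w.1 w.2.1
      rw [Finset.univ_eq_empty, Finset.sup_empty, bot_eq_zero, zero_pow (by omega)]
      exact zero_le
    · obtain ⟨i, -, hi⟩ := Finset.exists_max_image (Finset.univ : Finset σ)
        (fun i => (below K w).1 (x i)) Finset.univ_nonempty
      have h1 : (Finset.univ.sup fun i => (below K w).1 (x i)) = (below K w).1 (x i) :=
        le_antisymm (Finset.sup_le fun j hj => hi j hj)
          (Finset.le_sup (f := fun i => (below K w).1 (x i)) (Finset.mem_univ i))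
      rw [h1, ← below_pow]
      exact Finset.le_sup (f := fun i => w.1 (algebraMap K L (x i))) (Finset.mem_univ i)

section Tower

variable {κ : Type u} {K : Type v} {M : Type w} {L : Type w} [Field κ] [IsAlgClosed κ] [CharZero κ]
  [Field K] [Algebra κ K] [Field M] [Algebra κ M] [Algebra K M] [IsScalarTower κ K M]
  [FiniteDimensional K M] [Field L] [Algebra κ L] [Algebra K L] [IsScalarTower κ K L]
  [FiniteDimensional K L] [Algebra M L] [IsScalarTower κ M L] [IsScalarTower K M L]
  [FiniteDimensional M L]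

omit [IsAlgClosed κ] [CharZero κ] [Algebra κ K] [IsScalarTower κ K M] [IsScalarTower κ K L]
  [FiniteDimensional K M] [FiniteDimensional K L] [FiniteDimensional M L] [Field κ]
  [Algebra κ M] [Algebra κ L] [IsScalarTower κ M L] in
/-- the value of a form at the point over the larger field -/
theorem aeval_model {n e : ℕ} {G : MvPolynomial (Fin (n + 1)) K} (hG : G.IsHomogeneous e)
    {x : Fin (n + 1) → L} {y : Fin (n + 1) → M} {c : L}
    (hxy : ∀ i, x i = c * algebraMap M L (y i)) :
    aeval x G = c ^ e * algebraMap M L (aeval y G) := by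
  have h1 : x = fun i => c * algebraMap M L (y i) := funext hxy
  rw [h1, aeval_smul_hom hG]
  congr 1
  exact aeval_algebraMap_apply L y G

/-- the truncated counting functions in a tower -/
theorem trunc_model (hK : IsFF κ K) {n p : ℕ} {d : Fin p → ℕ}
    {F : Fin p → MvPolynomial (Fin (n + 1)) K} (hF : ∀ j, (F j).IsHomogeneous (d j))
    (S : Set (Place κ K)) {x : Fin (n + 1) → L} {y : Fin (n + 1) → M} {c : L} (hc : c ≠ 0)
    (hxy : ∀ i, x i = c * algebraMap M L (y i)) (hy : y ≠ 0) :
    finrank M L * truncCount κ F d S y ≤ truncCount κ F d S x + ramDeg κ L M := by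
  classical
  have hL : IsFF κ L := hK.of_finite
  have hval : ∀ w : Place κ L, w.1 c ≠ 0 := fun w => (Valuation.ne_zero_iff _).2 hc
  have hset : meetSet (κ := κ) d (fun i I => (F i).coeff I) S x =
      {w : Place κ L | below M w ∈ meetSet (κ := κ) d (fun i I => (F i).coeff I) S y} := by
    ext w
    simp only [meetSet, Set.mem_ofPred_eq]
    rw [below_below (K := K) (L := M) w]
    refine and_congr Iff.rfl (exists_congr fun j => ?_)
    rw [← aeval_eq_Fval (F j) (hF j) x, ← aeval_eq_Fval (F j) (hF j) y,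
      aeval_model (M := M) (hF j) hxy]
    have h1 : c ^ d j * algebraMap M L (aeval y (F j)) ≠ 0 ↔ aeval y (F j) ≠ 0 := by
      rw [Ne, mul_eq_zero, not_or]
      constructor
      · rintro ⟨-, h2⟩ h3
        exact h2 (by rw [h3, map_zero])
      · intro h2
        exact ⟨pow_ne_zero _ hc, fun h3 => h2 ((map_eq_zero _).1 h3)⟩
    rw [h1]
    refine and_congr Iff.rfl ?_
    have h2 : vmax w.1 x = w.1 c * vmax (below M w).1 y ^ ramIdx M w.1 := by
      have h3 : x = fun i => c * algebraMap M L (y i) := funext hxy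
      rw [h3, vmax_smul, vmax_ext]
    rw [map_mul, map_pow, below_pow, h2, mul_pow, ← pow_mul, mul_comm (ramIdx M w.1), pow_mul]
    have h3 : 0 < w.1 c ^ d j := pow_pos (zero_lt_iff.2 (hval w)) _
    rw [mul_lt_mul_iff_right₀ h3]
    have he := one_le_ramIdx (K := M) w.1 w.2.1
    exact pow_lt_pow_iff_left₀ zero_le zero_le (by omega)
  have hfin := meetSet_finite hK d (fun i I => (F i).coeff I) S hy
  have h1 := count_above (κ := κ) (L := M) (M := L) hL _ hfin
  rw [Pool.Agent.Lib.MP_44a246_ntSP.truncCount_eq_meetSet d F hF S x,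
    Pool.Agent.Lib.MP_44a246_ntSP.truncCount_eq_meetSet d F hF S y, hset]
  exact h1

end Tower

/-- **From the points which generate the field to all points.** -/
theorem DegTopAt.degAt {κ : Type u} {K : Type v} [Field κ] [IsAlgClosed κ] [CharZero κ]
    [Field K] [Algebra κ K] (hK : IsFF κ K) {n p : ℕ} {d : Fin p → ℕ} {A : Finset (Fin p)}
    {F : Fin p → MvPolynomial (Fin (n + 1)) K} (hF : ∀ j, (F j).IsHomogeneous (d j))
    {S : Set (Place κ K)} {r : ℕ} {ε : ℝ} (h : DegTopAt.{u, v, w} κ d A F S r ε) :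
    DegAt.{u, v, w} κ d A F S r ε := by
  classical
  obtain ⟨G, ⟨e, hG⟩, hG2, C, hC⟩ := h
  refine ⟨G, ⟨e, hG⟩, hG2, r * C, ?_⟩
  intro L _ _ _ _ _ x hr hx hFx
  obtain ⟨y, c, hc, hxy, hy, hytop⟩ := exists_model (K := K) hx
  obtain ⟨M, hM⟩ : ∃ M : IntermediateField K L, M = pointField K x := ⟨_, rfl⟩
  revert y
  rw [← hM]
  intro y hxy hy hytop
  have hxy' : ∀ i, x i = c * algebraMap M L (y i) := hxy
  have hL : IsFF κ L := hK.of_finite
  have hκM : IsScalarTower κ M L := IsScalarTower.of_algebraMap_eq fun c => by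
    rw [IsScalarTower.algebraMap_apply κ K L, IsScalarTower.algebraMap_apply κ K M,
      ← IsScalarTower.algebraMap_apply K M L]
  have hMr : finrank K M * finrank M L = finrank K L := finrank_mul_finrank K M L
  have hMpos : 0 < finrank M L := finrank_pos
  have hMK : finrank K M ≤ r := by
    refine le_trans ?_ hr
    rw [← hMr]
    exact Nat.le_mul_of_pos_right _ hMpos
  have hML : finrank M L ≤ r := by
    refine le_trans ?_ hr
    rw [← hMr]
    exact Nat.le_mul_of_pos_left _ finrank_pos
  have hFy : ∀ j ∈ A, aeval y (F j) = 0 := by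
    intro j hj
    have h1 := hFx j hj
    rw [aeval_model (M := M) (hF j) hxy', mul_eq_zero] at h1
    rcases h1 with h1 | h1
    · exact absurd h1 (pow_ne_zero _ hc)
    · exact (map_eq_zero _).1 h1
  have hht : height κ x = finrank M L * height κ y := by
    have h1 : x = fun i => c * algebraMap M L (y i) := funext hxy'
    rw [h1, hL.height_smul hc, hL.height_ext hy]
  rcases hC M y hMK hy hytop hFy with h1 | h1
  · left
    have h2 := trunc_model (κ := κ) (M := M) hK hF S hc hxy' hy
    have h3 := ramDeg_trans_eq (κ := κ) (K := K) (L := M) (M := L) hK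
    have h2R : (finrank M L : ℝ) * truncCount κ F d S y ≤
        truncCount κ F d S x + ramDeg κ L M := by exact_mod_cast h2
    have h3R : (ramDeg κ L K : ℝ) = ramDeg κ L M + finrank M L * ramDeg κ M K := by
      exact_mod_cast h3
    have hMpos' : (0 : ℝ) ≤ finrank M L := Nat.cast_nonneg _
    have h4 := mul_le_mul_of_nonneg_left h1 hMpos'
    have h5 : (finrank M L : ℝ) * C ≤ r * C := by
      have : (finrank M L : ℝ) ≤ r := by exact_mod_cast hML
      exact mul_le_mul_of_nonneg_right this (Nat.cast_nonneg _)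
    rw [hht]
    push_cast at h4 h5 ⊢
    nlinarith
  · right
    rw [aeval_model (M := M) hG hxy', h1, map_zero, mul_zero]

end Pool.Agent.Lib.MP_44a246_ntTA
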