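import Mathlib
import Pool.Agent.Lib.MP_44a246_ntTA.TA12
import Pool.Agent.Lib.MP_44a246_ntTA.TA14
import Pool.Agent.Lib.MP_44a246_ntTA.TA15

/-!
# T5: the inequality for the points of bounded degree, from the curves of bounded height
-/

namespace Pool.Agent.Lib.MP_44a246_ntTA

open Pool.Agent.Lib.MP_e52354_nt
open Pool.Agent.Lib.MP_44a246_nt
open Pool.Agent.Lib.MP_44a246_ntL
open Pool.Agent.Lib.MP_44a246_ntSP
open Pool.Agent.Lib.MP_44a246_ntUV
open Pool.Agent.Lib.MP_44a246_ntMY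
open WithZero MvPolynomial Module

universe u v w

/-- the points of degree at most `r` for which the inequality fails have small height or lie on a
curve of bounded degree and height -/
def LevelAt (κ : Type u) {K : Type v} [Field κ] [Field K] [Algebra κ K] {n p : ℕ}
    (d : Fin p → ℕ) (F : Fin p → MvPolynomial (Fin (n + 1)) K) (r : ℕ) (ε : ℝ) : Prop :=
  ∃ B C : ℕ, ∀ (L : Type w) [Field L] [Algebra K L] [FiniteDimensional K L] [Algebra κ L]
    [IsScalarTower κ K L], finrank K L ≤ r → ∀ (x : Fin (n + 1) → L), x ≠ 0 →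
    pointField K x = ⊤ → ∀ T : Finset (Place κ L),
    (∀ w ∉ T, ∀ j, aeval x (F j) ≠ 0 → w.1 (aeval x (F j)) = vmax w.1 x ^ d j) →
    (ramDeg κ L K : ℝ) + T.card + ε * height κ x ≤
      ((∑ j, d j : ℕ) - (n : ℝ) - 1) * height κ x →
    height κ x ≤ C ∨ CertV κ B 1 (C : ℤ) x

/-- **Vojta's inequality for the points of degree at most `r`**, from the curves of bounded
height. -/
theorem degTopAt_of_level {κ : Type u} {K : Type v} [Field κ] [IsAlgClosed κ] [CharZero κ]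
    [Field K] [CharZero K] [Algebra κ K] (hK : IsFF κ K) (hMY : MYP.{u, v} κ) {n p r : ℕ}
    {d : Fin p → ℕ} (hd1 : ∀ j, 1 ≤ d j) {A : Finset (Fin p)} (hA : A.card < n)
    {F : Fin p → MvPolynomial (Fin (n + 1)) K} (hF : ∀ j, (F j).IsHomogeneous (d j))
    (ha : AlgebraicIndependent ℚ
      (fun I : {I : Fin p × (Fin (n + 1) →₀ ℕ) // I.2.degree = d I.1} => (F I.1.1).coeff I.1.2))
    {S : Set (Place κ K)} (hS : S.Finite) {ε : ℝ} (hε : 0 < ε)
    (hlev : LevelAt.{u, v, w} κ d F r ε) : DegTopAt.{u, v, w} κ d A F S r ε := by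
  classical
  obtain ⟨B, C, hlev⟩ := hlev
  obtain ⟨C', hC'⟩ := exists_places.{u, v, w} hK d (fun j I => (F j).coeff I) hS
  -- the exceptional forms
  have hnum : ∀ A' : Finset (Fin p),
      (((∑ j, d j : ℕ) : ℝ) - n - 1 - ε) + ε ≤ (A'.card : ℝ) + (∑ j, d j : ℕ) +
        (max (n - A'.card) 1 : ℕ) - (2 * n + 1) := by
    intro A'
    have h1 : n ≤ A'.card + max (n - A'.card) 1 := by
      have := le_max_left (n - A'.card) 1
      omega
    have h2 : (n : ℝ) ≤ (A'.card : ℝ) + (max (n - A'.card) 1 : ℕ) := by exact_mod_cast h1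
    linarith
  have hexc := fun A' : {A' : Finset (Fin p) // A ⊆ A'} =>
    exc_L.{u, v, w} hK hMY (m₀ := n - A'.1.card) (b := B) (r₀ := r) hd1 (A := A'.1) hF ha hε
      (hnum A'.1) C
  choose CA s G hG1 hG2 hG3 using hexc
  obtain ⟨G₀, hG₀, hz, hG₀x⟩ := exists_G.{v, w} (K := K) hA.le hF hd1 s G hG1 fun A' => by
    refine (hG2 A').trans ?_
    have h1 : n - A'.1.card ≤ n - A.card := Nat.sub_le_sub_left (Finset.card_le_card A'.2) n
    exact_mod_cast h1
  obtain ⟨C₁, hC₁⟩ : ∃ C₁ : ℕ, C₁ = C' * r + (∑ j, d j) * C + ∑ A', CA A' := ⟨_, rfl⟩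
  refine ⟨G₀, hG₀, hz, C₁, ?_⟩
  intro L _ _ _ _ _ x hr hx htop hFx
  have hL : IsFF κ L := hK.of_finite
  have hh0 : (0 : ℝ) ≤ height κ x := by exact_mod_cast hL.height_nonneg hx
  obtain ⟨T, hT1, hT2⟩ := hC' L x hx
  have hT3 : ∀ w ∉ T, ∀ j, aeval x (F j) ≠ 0 → w.1 (aeval x (F j)) = vmax w.1 x ^ d j := by
    intro w hw j hj
    have h1 := hT2 w hw j
    rw [← aeval_eq_Fval (F j) (hF j) x] at h1
    exact h1 hj
  have hTc : (T.card : ℝ) ≤ C' * r + truncCount κ F d S x := by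
    rw [truncCount_eq_meetSet d F hF S x]
    have h1 : C' * finrank K L ≤ C' * r := Nat.mul_le_mul_left _ hr
    have h2 : T.card ≤ C' * r + (meetSet (κ := κ) d (fun i I => (F i).coeff I) S x).ncard := by
      omega
    exact_mod_cast h2
  have hC1R : (C₁ : ℝ) = C' * r + (∑ j, d j : ℕ) * C + (∑ A', CA A' : ℕ) := by
    rw [hC₁]
    push_cast
    ring
  have hCA0 : (0 : ℝ) ≤ (∑ A', CA A' : ℕ) := Nat.cast_nonneg _
  have hC'0 : (0 : ℝ) ≤ (C' : ℝ) * r := by positivity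
  have hdC0 : (0 : ℝ) ≤ ((∑ j, d j : ℕ) : ℝ) * C := by positivity
  have hR0 : (0 : ℝ) ≤ ramDeg κ L K := Nat.cast_nonneg _
  have hN0 : (0 : ℝ) ≤ truncCount κ F d S x := Nat.cast_nonneg _
  by_cases hcase : (((∑ j, d j : ℕ) : ℝ) - n - 1 - ε) * height κ x ≤
      truncCount κ F d S x + ramDeg κ L K + C₁
  · exact Or.inl hcase
  push Not at hcase
  have h1 := hlev L hr x hx htop T hT3 (by linarith)
  rcases h1 with h1 | h1
  · left
    have h2 : (height κ x : ℝ) ≤ C := by exact_mod_cast h1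
    have h3 : (((∑ j, d j : ℕ) : ℝ) - n - 1 - ε) * height κ x ≤
        ((∑ j, d j : ℕ) : ℝ) * height κ x :=
      mul_le_mul_of_nonneg_right (by linarith [(Nat.cast_nonneg n : (0 : ℝ) ≤ n)]) hh0
    have h4 : ((∑ j, d j : ℕ) : ℝ) * height κ x ≤ ((∑ j, d j : ℕ) : ℝ) * C :=
      mul_le_mul_of_nonneg_left h2 (Nat.cast_nonneg _)
    linarith
  · obtain ⟨A', hA'⟩ : ∃ A' : {A' : Finset (Fin p) // A ⊆ A'},
        A'.1 = Finset.univ.filter fun j => aeval x (F j) = 0 :=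
      ⟨⟨Finset.univ.filter fun j => aeval x (F j) = 0, fun j hj =>
        Finset.mem_filter.2 ⟨Finset.mem_univ j, hFx j hj⟩⟩, rfl⟩
    have hmem : ∀ j, j ∈ A'.1 ↔ aeval x (F j) = 0 := by
      intro j
      rw [hA', Finset.mem_filter]
      exact ⟨fun h => h.2, fun h => ⟨Finset.mem_univ j, h⟩⟩
    rcases hG3 A' L x T hr (fun j hj => (hmem j).1 hj) (fun j hj h => hj ((hmem j).2 h))
      (fun w hw j hj => hT3 w hw j fun h => hj ((hmem j).2 h)) h1 with h2 | h2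
    · left
      have h3 : (CA A' : ℝ) ≤ (∑ A', CA A' : ℕ) := by
        have h4 : CA A' ≤ ∑ A', CA A' :=
          Finset.single_le_sum (f := CA) (fun _ _ => Nat.zero_le _) (Finset.mem_univ A')
        exact_mod_cast h4
      linarith
    · right
      exact hG₀x L x A' h2

/-- the trivial case `∑ d_j ≤ n + 1` -/
theorem degAt_trivial {κ : Type u} {K : Type v} [Field κ] [IsAlgClosed κ] [CharZero κ]
    [Field K] [CharZero K] [Algebra κ K] (hK : IsFF κ K) {n p r : ℕ}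
    {d : Fin p → ℕ} (hd1 : ∀ j, 1 ≤ d j) {A : Finset (Fin p)} (hA : A.card < n)
    {F : Fin p → MvPolynomial (Fin (n + 1)) K} (hF : ∀ j, (F j).IsHomogeneous (d j))
    {S : Set (Place κ K)} {ε : ℝ} (hε : 0 < ε) (hd : ∑ j, d j ≤ n + 1) :
    DegAt.{u, v, w} κ d A F S r ε := by
  classical
  obtain ⟨G₀, hG₀, hz, -⟩ := exists_G.{v, w} (K := K) hA.le hF hd1 (ι := Fin 0)
    (fun _ => 0) (fun i => i.elim0) (fun i => i.elim0) (fun i => i.elim0)
  refine ⟨G₀, hG₀, hz, 0, ?_⟩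
  intro L _ _ _ _ _ x hr hx hFx
  left
  have hL : IsFF κ L := hK.of_finite
  have hh0 : (0 : ℝ) ≤ height κ x := by exact_mod_cast hL.height_nonneg hx
  have h1 : (((∑ j, d j : ℕ) : ℝ) - n - 1 - ε) ≤ 0 := by
    have h2 : ((∑ j, d j : ℕ) : ℝ) ≤ n + 1 := by exact_mod_cast hd
    linarith
  have h2 : (((∑ j, d j : ℕ) : ℝ) - n - 1 - ε) * height κ x ≤ 0 :=
    mul_nonpos_of_nonpos_of_nonneg h1 hh0
  have hR0 : (0 : ℝ) ≤ ramDeg κ L K := Nat.cast_nonneg _
  have hN0 : (0 : ℝ) ≤ truncCount κ F d S x := Nat.cast_nonneg _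
  have h3 : ((0 : ℕ) : ℝ) = 0 := Nat.cast_zero
  linarith

end Pool.Agent.Lib.MP_44a246_ntTA
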