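import Mathlib
import Pool.Agent.Lib.MP_44a246_ntC.C05
import Pool.Agent.Lib.MP_44a246_ntE.E20
import Pool.Agent.Lib.MP_44a246_ntO.OS1

/-!
The height of the space of the rows of the coefficients of any polynomial, and heights under
finite extensions.
-/

namespace Pool.Agent.Lib.MP_44a246_ntTA

open Pool.Agent.Lib.MP_44a246_nt
open Pool.Agent.Lib.MP_44a246_ntL
open Pool.Agent.Lib.MP_44a246_ntS
open Pool.Agent.Lib.MP_44a246_ntX
open Pool.Agent.Lib.MP_44a246_ntG
open Pool.Agent.Lib.MP_44a246_ntD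
open Pool.Agent.Lib.MP_44a246_ntZ
open Pool.Agent.Lib.MP_44a246_ntC
open Pool.Agent.Lib.MP_44a246_ntO
open Pool.Agent.Lib.MP_44a246_ntE (mp mp_coeff)
open Pool.Agent.Lib.MP_e52354_nt
open WithZero Module Polynomial

private theorem exp_le_one' {a : ℤ} (h : a ≤ 0) : (exp a : ℤᵐ⁰) ≤ 1 := by
  rw [← exp_zero, exp_le_exp]
  exact h

section

variable {κ L : Type*} [Field κ] [Field L] [Algebra κ L] {n d : ℕ} (X : DatG κ (L := L) n d)
  {b : ℕ} {A : L[X][X]} (hA0 : A ≠ 0)

include hA0 in
/-- local scaling: an element of the field which makes all coefficients integral -/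
theorem exists_scaleA (w : Place κ L) : ∃ u : L, w.1 u = exp (- log (gg w.1 A)) ∧
    ∀ i j, w.1 (u * (A.coeff i).coeff j) ≤ 1 := by
  have hgA : gg w.1 A ≠ 0 := (gg_eq_zero w.1).not.2 hA0
  -- the maximum is attained
  obtain ⟨i, j, hij⟩ : ∃ i j, w.1 ((A.coeff i).coeff j) = gg w.1 A := by
    by_contra hcon
    push Not at hcon
    have hlt : ∀ i j, w.1 ((A.coeff i).coeff j) ≤ exp (log (gg w.1 A) - 1) := by
      intro i j
      have h1 := lt_of_le_of_ne (le_gg w.1 A i j) (hcon i j)
      by_cases h0 : w.1 ((A.coeff i).coeff j) = 0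
      · rw [h0]
        exact zero_le
      · have h2 : log (w.1 ((A.coeff i).coeff j)) < log (gg w.1 A) := (log_lt_log h0 hgA).2 h1
        rw [← log_le_iff_le_exp h0]
        omega
    have h1 := gg_le w.1 hlt
    have h2 : (exp (log (gg w.1 A)) : ℤᵐ⁰) ≤ exp (log (gg w.1 A) - 1) := by
      rwa [exp_log hgA]
    rw [exp_le_exp] at h2
    omega
  have hc0 : (A.coeff i).coeff j ≠ 0 := by
    intro h0
    rw [h0, map_zero] at hij
    exact hgA hij.symm
  refine ⟨((A.coeff i).coeff j)⁻¹, ?_, fun i' j' => ?_⟩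
  · rw [map_inv₀, hij, exp_neg, exp_log hgA]
  · rw [map_mul, map_inv₀, hij]
    calc (gg w.1 A)⁻¹ * w.1 ((A.coeff i').coeff j') ≤ (gg w.1 A)⁻¹ * gg w.1 A :=
          mul_le_mul_right (le_gg w.1 A i' j') _
      _ = 1 := inv_mul_cancel₀ hgA

/-- the coefficients of the parametrisation after scaling -/
theorem scale_BA (w : Place κ L) {u : L} (hu : w.1 u ≤ 1)
    (hA1 : ∀ i j, w.1 (u * (A.coeff i).coeff j) ≤ 1) (l : Fin (n + 1)) (i j : ℕ) :
    w.1 (u ^ 2 * ((X.B A l).coeff i).coeff j) ≤ exp (X.δ w : ℤ) := by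
  have h1 : ((X.B A l).coeff i).coeff j = - X.E l ((A.coeff i).coeff j) := by
    unfold DatG.B
    rw [coeff_neg, coeff_neg, cd_coeff]
  set c := (A.coeff i).coeff j with hc
  have h2 : u ^ 2 * ((X.B A l).coeff i).coeff j = (u * c) * X.E l u - u * X.E l (u * c) := by
    rw [h1, Derivation.leibniz, smul_eq_mul, smul_eq_mul]
    ring
  rw [h2]
  refine (Valuation.map_sub _ _ _).trans (max_le ?_ ?_)
  · rw [map_mul]
    calc w.1 (u * c) * w.1 (X.E l u) ≤ 1 * exp (X.δ w : ℤ) :=
          mul_le_mul' (hA1 i j) (X.hE l w u hu)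
      _ = _ := one_mul _
  · rw [map_mul]
    calc w.1 u * w.1 (X.E l (u * c)) ≤ 1 * exp (X.δ w : ℤ) :=
          mul_le_mul' hu (X.hE l w _ (hA1 i j))
      _ = _ := one_mul _

theorem wt_boundA (w : Place κ L) {J : Finset (Fin (n + 1))} {γ : Type*} {β : γ → L}
    (hβ : ∀ t, ∀ w : Place κ L, w.1 (β t) ≤ 1) {u : L} (hu : w.1 u ≤ 1)
    (hA1 : ∀ i j, w.1 (u * (A.coeff i).coeff j) ≤ 1)
    (t : (Option ↥J × Fin (b + 1) × Fin (b + 1)) ⊕ γ) :
    w.1 (u ^ wt (b := b) t * Sum.elim (fun t : Option ↥J × Fin (b + 1) × Fin (b + 1) =>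
      ((t.1.elim A (fun k => X.B A k.1)).coeff t.2.1).coeff t.2.2) β t) ≤ exp (X.δ w : ℤ) := by
  have he : (1 : ℤᵐ⁰) ≤ exp (X.δ w : ℤ) := by
    rw [← exp_zero, exp_le_exp]
    positivity
  rcases t with ⟨_ | k, i, j⟩ | t
  · simp only [wt, Sum.elim_inl, Option.elim_none, pow_one]
    exact (hA1 i j).trans he
  · simp only [wt, Sum.elim_inl, Option.elim_some]
    exact scale_BA X w hu hA1 k.1 i j
  · simp only [wt, Sum.elim_inr, pow_zero, one_mul]
    exact (hβ t w).trans he

end

section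

variable {κ L : Type*} [Field κ] [IsAlgClosed κ] [CharZero κ] [Field L] [Algebra κ L] {n d : ℕ}
  (X : DatG κ (L := L) n d) {b : ℕ} {A : L[X][X]}

/-- the height of the span of the rows of the coefficients and of the further elements -/
theorem ht_RCB_gen (h : IsFF κ L) (hA0 : A ≠ 0) (hone : ∃ i j, (A.coeff i).coeff j = 1)
    (J : Finset (Fin (n + 1))) {γ : Type*} [Finite γ] {β : γ → L}
    (hβ : ∀ t, ∀ w : Place κ L, w.1 (β t) ≤ 1) :
    ht κ (RC X J b A ⊔ RB X β) ≤ finrank L (RC X J b A ⊔ RB X β : Submodule L (M3 d → L)) *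
      (2 * gh κ A + 3 * X.Δ) + gh κ A + X.R := by
  have := Fintype.ofFinite γ
  have s0 := gg_support h hA0
  have s2 : (Function.support fun w : Place κ L => (X.δ w : ℤ)).Finite := by
    refine X.hδ.subset fun w hw h1 => hw ?_
    simp only at h1 ⊢
    rw [h1, Nat.cast_zero]
  have s3 : (Function.support fun _ : Place κ L => (0 : ℤ)).Finite := by
    have : (Function.support fun _ : Place κ L => (0 : ℤ)) = ∅ := by
      ext w
      simp
    rw [this]
    exact Set.finite_empty
  have hlog : ∀ w : Place κ L, 0 ≤ log (gg w.1 A) := by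
    intro w
    rw [le_log_iff_exp_le ((gg_eq_zero w.1).not.2 hA0), exp_zero]
    exact one_le_gg hone w
  have hrow1 : X.row 1 = 0 := by
    have := X.row_natCast 1
    rwa [Nat.cast_one] at this
  choose u hu1 hu2 using fun w : Place κ L => exists_scaleA hA0 w
  have hule : ∀ w : Place κ L, w.1 (u w) ≤ 1 := by
    intro w
    rw [hu1 w]
    exact exp_le_one' (by have := hlog w; linarith)
  let ex : (Option ↥J × Fin (b + 1) × Fin (b + 1)) ⊕ γ → L := Sum.elim
    (fun t => ((t.1.elim A (fun k => X.B A k.1)).coeff t.2.1).coeff t.2.2) β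
  have hV : RC X J b A ⊔ RB X β = Submodule.span L (Set.range
      fun t : Option ((Option ↥J × Fin (b + 1) × Fin (b + 1)) ⊕ γ) => X.row (t.elim 1 ex)) := by
    rw [Submodule.span_range_eq_iSup, iSup_option, iSup_sum]
    unfold RC RB
    rw [Finset.sup_univ_eq_iSup, Submodule.span_range_eq_iSup]
    simp only [Option.elim_none, Option.elim_some, hrow1, Submodule.span_zero_singleton,
      bot_sup_eq]
    rfl
  have hmain := ht_span_row_wt X h (fun t : Option ((Option ↥J ×
      Fin (b + 1) × Fin (b + 1)) ⊕ γ) => t.elim 1 ex) (wt (b := b)) wt_le (u := u)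
    (a := fun w => log (gg w.1 A)) (g := fun w => (X.δ w : ℤ)) (g' := fun _ => 0)
    s0 s2 s3 hlog (fun w => Int.natCast_nonneg _) (fun _ => le_rfl) hu1
    (fun t w => wt_boundA X w hβ (hule w) (hu2 w) t) (fun w => ?_) hV
  · have e1 : ∑ᶠ w : Place κ L, log (gg w.1 A) = gh κ A := rfl
    have e3 : ∑ᶠ w : Place κ L, (X.δ w : ℤ) = X.Δ := rfl
    rw [e1, e3, finsum_zero, mul_zero, add_zero] at hmain
    refine hmain.trans (le_of_eq ?_)
    ring
  · simp only [Option.elim_none, map_one, exp_zero, le_refl]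

end

/-- the Gauss norm is attained -/
theorem exists_gg_eq {L : Type*} [Field L] (v : Valuation L ℤᵐ⁰) {A : L[X][X]} (hA0 : A ≠ 0) :
    ∃ i j, v ((A.coeff i).coeff j) = gg v A := by
  have hgA : gg v A ≠ 0 := (gg_eq_zero v).not.2 hA0
  by_contra hcon
  push Not at hcon
  have hlt : ∀ i j, v ((A.coeff i).coeff j) ≤ exp (log (gg v A) - 1) := by
    intro i j
    have h1 := lt_of_le_of_ne (le_gg v A i j) (hcon i j)
    by_cases h0 : v ((A.coeff i).coeff j) = 0
    · rw [h0]
      exact zero_le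
    · have h2 : log (v ((A.coeff i).coeff j)) < log (gg v A) := (log_lt_log h0 hgA).2 h1
      rw [← log_le_iff_le_exp h0]
      omega
  have h1 := gg_le v hlt
  have h2 : (exp (log (gg v A)) : ℤᵐ⁰) ≤ exp (log (gg v A) - 1) := by
    rwa [exp_log hgA]
  rw [exp_le_exp] at h2
  omega

section

variable {κ K L : Type*} [Field κ] [IsAlgClosed κ] [CharZero κ] [Field K] [Field L]
  [Algebra κ K] [Algebra K L] [Algebra κ L] [IsScalarTower κ K L] [FiniteDimensional K L]

omit [IsAlgClosed κ] [CharZero κ] in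
/-- the Gauss norm over a finite extension -/
theorem gg_mp' (w : Place κ L) {P : K[X][X]} (hP : P ≠ 0) :
    gg w.1 (mp K L P) = gg (below K w).1 P ^ ramIdx K w.1 := by
  apply le_antisymm
  · refine gg_le w.1 fun i j => ?_
    rw [mp_coeff, below_pow]
    exact pow_le_pow_left' (le_gg _ P i j) _
  · obtain ⟨i, j, hij⟩ := exists_gg_eq (below K w).1 hP
    rw [← hij, ← below_pow, ← mp_coeff]
    exact le_gg _ _ i j

/-- the height of a polynomial over a finite extension -/
theorem gh_mp' (hK : IsFF κ K) {P : K[X][X]} (hP : P ≠ 0) :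
    gh κ (mp K L P) = finrank K L * gh κ P := by
  have h1 := gg_support hK hP
  have h2 := (finsum_below (L := L) hK h1).2
  unfold gh
  rw [← h2]
  refine finsum_congr fun w => ?_
  rw [gg_mp' w hP, ← nsmul_eq_mul, log_pow]

/-- the sum of a divisor over a finite extension -/
theorem sum_ram_below (hK : IsFF κ K) {B : Place κ K → ℕ} (hB : (Function.support B).Finite) :
    (Function.support fun w : Place κ L => ramIdx K w.1 * B (below K w)).Finite ∧
      ∑ᶠ w : Place κ L, ((ramIdx K w.1 * B (below K w) : ℕ) : ℤ) =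
        finrank K L * ∑ᶠ v, (B v : ℤ) := by
  have h1 : (Function.support fun v => (B v : ℤ)).Finite := by
    refine hB.subset fun v hv h0 => hv ?_
    simp only at h0 ⊢
    rw [h0, Nat.cast_zero]
  obtain ⟨h2, h3⟩ := finsum_below (L := L) hK h1
  constructor
  · refine h2.subset fun w hw h0 => hw ?_
    simp only at h0 ⊢
    exact_mod_cast h0
  · rw [← h3]
    refine finsum_congr fun w => ?_
    push_cast
    rfl

end

end Pool.Agent.Lib.MP_44a246_ntTA
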