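import Mathlib
import Pool.Agent.Lib.MP_44a246_ntTA.TA01
import Pool.Agent.Lib.MP_44a246_ntX.XP2
import Pool.Agent.Lib.MP_44a246_ntL.LTrans
import Pool.Agent.Lib.MP_44a246_ntSF.SFA02

/-!
The data of a point over `L`, whose derivations are extensions of derivations of `K`: the rows of
the elements of an intermediate field `M`.
-/

namespace Pool.Agent.Lib.MP_44a246_ntTA

open Pool.Agent.Lib.MP_44a246_nt
open Pool.Agent.Lib.MP_44a246_ntL
open Pool.Agent.Lib.MP_44a246_ntS
open Pool.Agent.Lib.MP_44a246_ntX
open Pool.Agent.Lib.MP_44a246_ntG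
open Pool.Agent.Lib.MP_44a246_ntD
open Pool.Agent.Lib.MP_44a246_ntZ
open Pool.Agent.Lib.MP_44a246_ntC
open Pool.Agent.Lib.MP_44a246_ntO
open Pool.Agent.Lib.MP_44a246_ntE (mp mp_coeff)
open Pool.Agent.Lib.MP_44a246_ntSF (der_eq_zero_of_algebraic)
open Pool.Agent.Lib.MP_e52354_nt
open WithZero Module Polynomial

/-- The derivations of the data of the point are extensions of derivations of `K`, with poles bounded
by the divisor `B` of `K`. -/
structure KDat (κ : Type*) (K : Type*) {L : Type*} [Field κ] [Field K] [Field L] [Algebra κ K]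
    [Algebra K L] [Algebra κ L] [IsScalarTower κ K L] [Algebra.IsAlgebraic K L] {n d : ℕ}
    (X : DatG κ (L := L) n d) where
  a : (Fin (n + 1) →₀ ℕ) → K
  D : (Fin (n + 1) →₀ ℕ) → Derivation ℤ K K
  E : Fin (n + 1) → Derivation ℤ K K
  B : Place κ K → ℕ
  hB : (Function.support B).Finite
  ha : ∀ I, X.a I = algebraMap K L (a I)
  hD : ∀ I (y : K), X.D I (algebraMap K L y) = algebraMap K L (D I y)
  hE : ∀ j (y : K), X.E j (algebraMap K L y) = algebraMap K L (E j y)
  hDB : ∀ I ∈ expo (Fin (n + 1)) d, PoleBound κ (D I) B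
  hδ : ∀ w : Place κ L, X.δ w = ramIdx K w.1 * B (below K w)

/-- two derivations which agree on `K` agree on the algebraic extension `M` -/
theorem der_tower {K M L : Type*} [Field K] [CharZero K] [Field M] [Field L] [Algebra K M]
    [Algebra K L] [Algebra M L] [IsScalarTower K M L] [Algebra.IsAlgebraic K M]
    {D : Derivation ℤ K K} {D' : Derivation ℤ M M} {D'' : Derivation ℤ L L}
    (h1 : ∀ y : K, D' (algebraMap K M y) = algebraMap K M (D y))
    (h2 : ∀ y : K, D'' (algebraMap K L y) = algebraMap K L (D y)) (c : M) :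
    D'' (algebraMap M L c) = algebraMap M L (D' c) := by
  let F : Derivation ℤ M L := D''.compAlgebraMap M - (Algebra.linearMap M L).compDer D'
  have h3 : F c = 0 := by
    refine der_eq_zero_of_algebraic (K := K) F (fun u => ?_) (Algebra.IsAlgebraic.isAlgebraic c)
    show D'' (algebraMap M L (algebraMap K M u)) - algebraMap M L (D' (algebraMap K M u)) = 0
    rw [← IsScalarTower.algebraMap_apply, h1, h2, ← IsScalarTower.algebraMap_apply, sub_self]
  exact sub_eq_zero.1 h3

section

variable {κ K M L : Type*} [Field κ] [IsAlgClosed κ] [CharZero κ] [Field K] [CharZero K]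
  [Field M] [Field L] [CharZero L]
  [Algebra κ K] [Algebra κ M] [Algebra κ L] [Algebra K M] [Algebra K L] [Algebra M L]
  [IsScalarTower κ K M] [IsScalarTower κ K L] [IsScalarTower κ M L] [IsScalarTower K M L]
  [FiniteDimensional K M] [FiniteDimensional M L] [FiniteDimensional K L]

/-- **The data over the intermediate field.** -/
theorem exists_datM (hK : IsFF κ K) {n d : ℕ} {X : DatG κ (L := L) n d} (O : KDat κ K X) :
    ∃ Y : DatG κ (L := M) n d,
      (∀ (c : M) (t : M3 d), X.row (algebraMap M L c) t = algebraMap M L (Y.row c t)) ∧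
      (∀ j (c : M), X.E j (algebraMap M L c) = algebraMap M L (Y.E j c)) ∧
      Y.Δ = finrank K M * ∑ᶠ v, (O.B v : ℤ) ∧ Y.R = ramDeg κ M K := by
  classical
  have hM : IsFF κ M := hK.of_finite
  have hL : IsFF κ L := hK.of_finite
  have hMc : CharZero M := charZero_of_injective_algebraMap (algebraMap K M).injective
  choose D' hD' using fun I => exists_extension (L := M) (O.D I)
  choose E' hE' using fun j => exists_extension (L := M) (O.E j)
  have hDL : ∀ I (c : M), X.D I (algebraMap M L c) = algebraMap M L (D' I c) := fun I c =>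
    der_tower (hD' I) (O.hD I) c
  have hEL : ∀ j (c : M), X.E j (algebraMap M L c) = algebraMap M L (E' j c) := fun j c =>
    der_tower (hE' j) (O.hE j) c
  -- a coordinate at which the linear form does not vanish
  obtain ⟨l, hl⟩ : ∃ l, X.ξ₀ l ≠ 0 := by
    by_contra hcon
    push Not at hcon
    have h1 := X.h0
    simp [hcon] at h1
  have hlM : (X.ξ₀ l : M) ≠ 0 := by exact_mod_cast hl
  have hnat : ∀ (w : Place κ M) (m : ℕ), w.1 (m : M) ≤ 1 := by
    intro w m
    have h1 : algebraMap κ M (m : κ) = (m : M) := map_natCast _ _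
    rw [← h1]
    by_cases h : (m : κ) = 0
    · rw [h, map_zero, map_zero]
      exact zero_le
    · exact (w.2.2 _ h).le
  have hinv : ∀ (w : Place κ M), w.1 ((X.ξ₀ l : M)⁻¹) ≤ 1 := by
    intro w
    have h1 : algebraMap κ M ((X.ξ₀ l : κ)⁻¹) = (X.ξ₀ l : M)⁻¹ := by
      rw [map_inv₀, map_natCast]
    rw [← h1]
    have h2 : ((X.ξ₀ l : κ)⁻¹) ≠ 0 := inv_ne_zero (by exact_mod_cast hl)
    exact (w.2.2 _ h2).le
  obtain ⟨s1, s2⟩ := sum_ram_below (L := M) hK O.hB
  obtain ⟨r1, r2⟩ := mason_sum_ram (K := K) hM
  let Y : DatG κ (L := M) n d :=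
    { a := fun I => algebraMap K M (O.a I)
      D := D'
      δ := fun w => ramIdx K w.1 * O.B (below K w)
      ρ := fun w => ramIdx K w.1 - 1
      x := fun j => if j = l then (X.ξ₀ l : M)⁻¹ else 0
      z := X.z
      E := E'
      ξ₀ := X.ξ₀
      ξ₁ := X.ξ₁
      hDa := by
        intro I hI J hJ
        apply (algebraMap M L).injective
        rw [← hDL, ← IsScalarTower.algebraMap_apply, ← O.ha, X.hDa I hI J hJ]
        split_ifs <;> simp
      hδ := s1
      hρ := by
        refine r1.subset fun w hw h0 => hw ?_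
        simp only at h0 ⊢
        exact_mod_cast h0
      hD := minor_over hK (fun I hI => O.hDB I hI) hD'
      hE := by
        intro j v y hy
        obtain ⟨T, ⟨w, hwT⟩, hT1, -⟩ := hL.exists_over (K := M) v
        have hw : below M w = v := (hT1 w).1 hwT
        have e0 : ramIdx M w.1 ≠ 0 := by
          have := one_le_ramIdx (K := M) w.1 w.2.1
          omega
        have h1 : w.1 (algebraMap M L y) ≤ 1 := by
          rw [below_pow, hw]
          exact pow_le_one₀ zero_le hy
        have h2 := X.hE j w _ h1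
        have e1 : below K w = below K v := by
          rw [← hw, below_below]
        have e2 : ramIdx K w.1 = ramIdx M w.1 * ramIdx K v.1 := by
          rw [← hw]
          exact ramIdx_mul w
        rw [hEL, below_pow, hw, O.hδ, e2, e1] at h2
        have h3 : (exp ((ramIdx M w.1 * ramIdx K v.1 * O.B (below K v) : ℕ) : ℤ) : ℤᵐ⁰) =
            exp ((ramIdx K v.1 * O.B (below K v) : ℕ) : ℤ) ^ ramIdx M w.1 := by
          rw [← exp_nsmul, nsmul_eq_mul]
          congr 1
          push_cast
          ring
        rw [h3] at h2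
        exact (pow_le_pow_iff_left₀ zero_le zero_le e0).1 h2
      hEz := by
        intro i j
        apply (algebraMap M L).injective
        rw [← hEL, ← IsScalarTower.algebraMap_apply, X.hEz]
        split_ifs <;> simp
      hEx := by
        intro i j
        split_ifs with hj
        · have h1 : E' i ((X.ξ₀ l : M) * (X.ξ₀ l : M)⁻¹) = 0 := by
            rw [mul_inv_cancel₀ hlM]
            exact Derivation.map_one_eq_zero _
          rw [Derivation.leibniz, Derivation.map_natCast, smul_zero, add_zero, smul_eq_mul] at h1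
          exact (mul_eq_zero.1 h1).resolve_left hlM
        · exact map_zero _
      h0 := by
        rw [Finset.sum_eq_single l]
        · rw [if_pos rfl, mul_inv_cancel₀ hlM]
        · intro j _ hj
          rw [if_neg hj, mul_zero]
        · intro h
          exact absurd (Finset.mem_univ l) h
      hmax := by
        intro w
        refine le_trans ?_ (le_max_left _ _)
        refine vmax_le w.1 fun j => ?_
        split_ifs
        · exact hinv w
        · rw [map_zero]
          exact zero_le }
  refine ⟨Y, fun c t => ?_, hEL, s2, r2⟩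
  show X.DK t (algebraMap M L c) = algebraMap M L (Y.DK t c)
  rw [X.DK_apply, Y.DK_apply, map_sum]
  refine Finset.sum_congr rfl fun I _ => ?_
  rw [map_mul, hDL, ← IsScalarTower.algebraMap_apply]
  rfl

omit [IsAlgClosed κ] [CharZero κ] [CharZero K] [CharZero L] [FiniteDimensional K M]
  [FiniteDimensional M L] [FiniteDimensional K L] [IsScalarTower K M L] [IsScalarTower κ K M]
  [IsScalarTower κ K L] [IsScalarTower κ M L] [Algebra K M] [Algebra K L] [Algebra κ K]
  [Field K] in
/-- the rows of the elements of the intermediate field -/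
theorem RCB_eq {n d b : ℕ} {X : DatG κ (L := L) n d} {Y : DatG κ (L := M) n d}
    (hrow : ∀ (c : M) (t : M3 d), X.row (algebraMap M L c) t = algebraMap M L (Y.row c t))
    (hE : ∀ j (c : M), X.E j (algebraMap M L c) = algebraMap M L (Y.E j c)) (A : M[X][X])
    (J : Finset (Fin (n + 1))) {γ : Type*} [Fintype γ] (β : γ → M) :
    RC X J b (mp M L A) ⊔ RB X (fun t => algebraMap M L (β t)) = bc L (RC Y J b A ⊔ RB Y β) := by
  have hB : ∀ (k : Fin (n + 1)), X.B (mp M L A) k = mp M L (Y.B A k) := by
    intro k
    ext i j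
    rw [mp_coeff]
    unfold DatG.B
    rw [coeff_neg, coeff_neg, cd_coeff, coeff_neg, coeff_neg, cd_coeff, mp_coeff, hE, map_neg]
  have hrow' : ∀ c : M, X.row (algebraMap M L c) = fun t => algebraMap M L (Y.row c t) := fun c =>
    funext fun t => hrow c t
  have h1 : RC Y J b A ⊔ RB Y β = Submodule.span M (Set.range
      fun t : (Option ↥J × Fin (b + 1) × Fin (b + 1)) ⊕ γ => Y.row (Sum.elim
        (fun t => ((t.1.elim A (fun k => Y.B A k.1)).coeff t.2.1).coeff t.2.2) β t)) := by
    rw [Submodule.span_range_eq_iSup, iSup_sum]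
    unfold RC RB
    rw [Finset.sup_univ_eq_iSup, Submodule.span_range_eq_iSup]
    rfl
  have h2 : RC X J b (mp M L A) ⊔ RB X (fun t => algebraMap M L (β t)) =
      Submodule.span L (Set.range
      fun t : (Option ↥J × Fin (b + 1) × Fin (b + 1)) ⊕ γ => X.row (Sum.elim
        (fun t => ((t.1.elim (mp M L A) (fun k => X.B (mp M L A) k.1)).coeff t.2.1).coeff t.2.2)
        (fun t => algebraMap M L (β t)) t)) := by
    rw [Submodule.span_range_eq_iSup, iSup_sum]
    unfold RC RB
    rw [Finset.sup_univ_eq_iSup, Submodule.span_range_eq_iSup]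
    rfl
  rw [h1, h2, bc_span, ← Set.range_comp]
  congr 2
  funext t
  rcases t with ⟨_ | k, i, j⟩ | t
  · simp only [Sum.elim_inl, Option.elim_none, Function.comp_apply]
    rw [mp_coeff, hrow']
  · simp only [Sum.elim_inl, Option.elim_some, Function.comp_apply]
    rw [hB, mp_coeff, hrow']
  · simp only [Sum.elim_inr, Function.comp_apply]
    rw [hrow']

/-- **The height of the space of the rows of the coefficients**, with the ramification of the
field of the coefficients. -/
theorem ht_RCB_M (hK : IsFF κ K) {n d b : ℕ} {X : DatG κ (L := L) n d} (O : KDat κ K X)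
    {A : M[X][X]} (hA0 : A ≠ 0) (hone : ∃ i j, (A.coeff i).coeff j = 1)
    (J : Finset (Fin (n + 1))) {γ : Type*} [Fintype γ] (β : γ → κ) :
    ht κ (RC X J b (mp M L A) ⊔ RB X (fun t => algebraMap κ L (β t))) ≤
      finrank L (RC X J b (mp M L A) ⊔ RB X (fun t => algebraMap κ L (β t)) :
        Submodule L (M3 d → L)) *
      (2 * gh κ (mp M L A) + 3 * (finrank K L * ∑ᶠ v, (O.B v : ℤ))) + gh κ (mp M L A) +
        finrank M L * ramDeg κ M K := by
  have hM : IsFF κ M := hK.of_finite
  obtain ⟨Y, h1, h2, h3, h4⟩ := exists_datM (M := M) hK O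
  have e1 : (fun t => algebraMap κ L (β t)) = fun t => algebraMap M L (algebraMap κ M (β t)) := by
    funext t
    rw [← IsScalarTower.algebraMap_apply]
  rw [e1, RCB_eq h1 h2, ht_bc hM, finrank_bc, gh_mp' hM hA0]
  have h5 := ht_RCB_gen Y hM hA0 hone J (b := b) (β := fun t => algebraMap κ M (β t)) (by
    intro t w
    by_cases h : β t = 0
    · simp only [h, map_zero]
      exact zero_le
    · exact (w.2.2 _ h).le)
  rw [h3, h4] at h5
  have h6 : (finrank K L : ℤ) = finrank K M * finrank M L := by
    rw [← Module.finrank_mul_finrank K M L]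
    push_cast
    rfl
  have h7 := mul_le_mul_of_nonneg_left h5 (Int.natCast_nonneg (finrank M L))
  refine h7.trans (le_of_eq ?_)
  rw [h6]
  ring

end

end Pool.Agent.Lib.MP_44a246_ntTA
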