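import Mathlib
import Pool.Agent.Lib.MP_44a246_ntTA.TA02
import Pool.Agent.Lib.MP_44a246_ntL.LRamExt

/-!
The ramification of the field of the coefficients of a curve is bounded by the height of the curve.
-/

namespace Pool.Agent.Lib.MP_44a246_ntTA

open Pool.Agent.Lib.MP_44a246_nt
open Pool.Agent.Lib.MP_44a246_ntL
open Pool.Agent.Lib.MP_44a246_ntS
open Pool.Agent.Lib.MP_44a246_ntX
open Pool.Agent.Lib.MP_44a246_ntG
open Pool.Agent.Lib.MP_44a246_ntD
open Pool.Agent.Lib.MP_44a246_ntZ
open Pool.Agent.Lib.MP_44a246_ntC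
open Pool.Agent.Lib.MP_44a246_ntO
open Pool.Agent.Lib.MP_44a246_ntE (mp mp_coeff)
open Pool.Agent.Lib.MP_e52354_nt
open WithZero Module Polynomial

/-- the vector of the coefficients -/
noncomputable def cv {M : Type*} [Field M] (b : ℕ) (A : M[X][X]) : Fin ((b + 1) * (b + 1)) → M := fun t =>
  (A.coeff (finProdFinEquiv.symm t).1).coeff (finProdFinEquiv.symm t).2

theorem cv_apply {M : Type*} [Field M] {b : ℕ} {A : M[X][X]} (hb : Box b A) {i j : ℕ}
    (h : (A.coeff i).coeff j ≠ 0) : ∃ t, cv b A t = (A.coeff i).coeff j := by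
  have hi : i < b + 1 := by
    by_contra hcon
    apply h
    have h1 : A.coeff i = 0 := coeff_eq_zero_of_natDegree_lt (by have := hb.1; omega)
    rw [h1, coeff_zero]
  have hj : j < b + 1 := by
    by_contra hcon
    exact h (coeff_eq_zero_of_natDegree_lt (by have := hb.2 i; omega))
  refine ⟨finProdFinEquiv (⟨i, hi⟩, ⟨j, hj⟩), ?_⟩
  unfold cv
  rw [Equiv.symm_apply_apply]

section

variable {κ K M : Type*} [Field κ] [IsAlgClosed κ] [CharZero κ] [Field K]
  [Field M] [Algebra κ K] [Algebra κ M] [Algebra K M] [IsScalarTower κ K M]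
  [FiniteDimensional K M]

/-- the ramification of the field of the coefficients -/
theorem ram_coeff (hK : IsFF κ K) {b : ℕ} {A : M[X][X]} (hb : Box b A)
    (hone : ∃ i j, (A.coeff i).coeff j = 1)
    (hgen : IntermediateField.adjoin K {c : M | ∃ i j, c = (A.coeff i).coeff j} = ⊤) :
    (ramDeg κ M K : ℤ) ≤ 2 * ((finrank K M : ℤ) - 1) * gh κ A := by
  classical
  have hM : IsFF κ M := hK.of_finite
  obtain ⟨i₀, j₀, h1⟩ := hone
  have hA0 : A ≠ 0 := by
    rintro rfl
    simp at h1
  obtain ⟨t₀, ht₀⟩ := cv_apply hb (i := i₀) (j := j₀) (by rw [h1]; exact one_ne_zero)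
  rw [h1] at ht₀
  have hcv : cv b A ≠ 0 := by
    intro h0
    have := congrFun h0 t₀
    rw [ht₀] at this
    exact one_ne_zero this
  have hpf : pointField K (cv b A) = ⊤ := by
    rw [eq_top_iff, ← hgen, IntermediateField.adjoin_le_iff]
    rintro c ⟨i, j, rfl⟩
    by_cases hc : (A.coeff i).coeff j = 0
    · rw [SetLike.mem_coe, hc]
      exact zero_mem _
    · obtain ⟨t, ht⟩ := cv_apply hb hc
      refine IntermediateField.subset_adjoin K _ ⟨t, t₀, ?_⟩
      rw [ht, ht₀, div_one]
  have h2 := ram_points hK (fun _ : Fin 1 => cv b A) (fun _ => hcv) (by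
    rw [iSup_const]
    exact hpf)
  rw [Fin.sum_univ_one] at h2
  have h3 : height κ (cv b A) ≤ gh κ A := by
    refine finsum_mono (hM.vmax_support hcv) (gg_support hM hA0) fun w => ?_
    have hv : vmax w.1 (cv b A) ≠ 0 := by
      rw [Ne, vmax_eq_zero_iff]
      exact hcv
    refine (log_le_log hv ((gg_eq_zero w.1).not.2 hA0)).2 ?_
    exact vmax_le w.1 fun t => le_gg w.1 A _ _
  have h4 : (0 : ℤ) ≤ 2 * ((finrank K M : ℤ) - 1) := by
    have : 1 ≤ finrank K M := Module.finrank_pos
    have : (1 : ℤ) ≤ finrank K M := by exact_mod_cast this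
    linarith
  exact h2.trans (mul_le_mul_of_nonneg_left h3 h4)

end

/-- polynomials with coefficients in an intermediate field -/
theorem exists_mp_eq {M L : Type*} [Field M] [Field L] [Algebra M L] {P : L[X][X]}
    (h : ∀ i j, (P.coeff i).coeff j ∈ Set.range (algebraMap M L)) :
    ∃ Q : M[X][X], mp M L Q = P := by
  have h1 : P ∈ lifts (mapRingHom (algebraMap M L)) := by
    rw [lifts_iff_coeff_lifts]
    intro i
    have h2 : P.coeff i ∈ lifts (algebraMap M L) := by
      rw [lifts_iff_coeff_lifts]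
      intro j
      exact h i j
    obtain ⟨q, hq⟩ := (mem_lifts _).1 h2
    exact ⟨q, hq⟩
  obtain ⟨Q, hQ⟩ := (mem_lifts _).1 h1
  exact ⟨Q, hQ⟩

section

variable {κ K L : Type*} [Field κ] [IsAlgClosed κ] [CharZero κ] [Field K] [CharZero K]
  [Field L] [CharZero L] [Algebra κ K] [Algebra κ L] [Algebra K L]
  [IsScalarTower κ K L] [FiniteDimensional K L]

/-- **The height of the space of the rows of the coefficients** without the ramification of `L`. -/
theorem ht_RCB_K (hK : IsFF κ K) {n d b : ℕ} {X : DatG κ (L := L) n d} (O : KDat κ K X)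
    {A : L[X][X]} (hb : Box b A) (hone : ∃ i j, (A.coeff i).coeff j = 1)
    (J : Finset (Fin (n + 1))) {γ : Type*} [Fintype γ] (β : γ → κ) :
    ht κ (RC X J b A ⊔ RB X (fun t => algebraMap κ L (β t))) ≤
      finrank L (RC X J b A ⊔ RB X (fun t => algebraMap κ L (β t)) :
        Submodule L (M3 d → L)) *
      (2 * gh κ A + 3 * (finrank K L * ∑ᶠ v, (O.B v : ℤ))) + gh κ A +
        2 * finrank K L * gh κ A := by
  obtain ⟨S, hS⟩ : ∃ S : Set L, S = {c : L | ∃ i j, c = (A.coeff i).coeff j} := ⟨_, rfl⟩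
  let M : IntermediateField K L := IntermediateField.adjoin K S
  have hmem : ∀ i j, (A.coeff i).coeff j ∈ M := fun i j =>
    IntermediateField.subset_adjoin K S (by rw [hS]; exact ⟨i, j, rfl⟩)
  obtain ⟨A', hA'⟩ := exists_mp_eq (M := M) (L := L) (P := A) fun i j =>
    ⟨⟨_, hmem i j⟩, rfl⟩
  have hco : ∀ i j, algebraMap M L ((A'.coeff i).coeff j) = (A.coeff i).coeff j := by
    intro i j
    rw [← mp_coeff, hA']
  have hone' : ∃ i j, (A'.coeff i).coeff j = 1 := by
    obtain ⟨i, j, h1⟩ := hone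
    refine ⟨i, j, (algebraMap M L).injective ?_⟩
    rw [hco, h1, map_one]
  have hA0 : A' ≠ 0 := by
    rintro rfl
    obtain ⟨i, j, h1⟩ := hone'
    simp at h1
  have hb' : Box b A' := by
    have e : ∀ i, (A.coeff i) = (A'.coeff i).map (algebraMap M L) := by
      intro i
      ext j
      rw [coeff_map, hco]
    refine ⟨?_, fun i => ?_⟩
    · rw [natDegree_le_iff_coeff_eq_zero]
      intro N hN
      have h1 : A.coeff N = 0 := coeff_eq_zero_of_natDegree_lt (lt_of_le_of_lt hb.1 hN)
      rw [e, Polynomial.map_eq_zero] at h1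
      exact h1
    · have h1 := hb.2 i
      rw [e, natDegree_map] at h1
      exact h1
  have hgen : IntermediateField.adjoin K {c : M | ∃ i j, c = (A'.coeff i).coeff j} = ⊤ := by
    apply IntermediateField.lift_injective
    rw [IntermediateField.lift_adjoin, IntermediateField.lift_top]
    show _ = IntermediateField.adjoin K S
    congr 1
    rw [hS]
    ext c
    constructor
    · rintro ⟨_, ⟨i, j, rfl⟩, rfl⟩
      exact ⟨i, j, hco i j⟩
    · rintro ⟨i, j, rfl⟩
      exact ⟨_, ⟨i, j, rfl⟩, hco i j⟩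
  have h1 := ht_RCB_M (M := M) (L := L) hK O hA0 hone' J (b := b) β
  have h2 := ram_coeff (κ := κ) hK hb' hone' hgen
  have hM : IsFF κ M := hK.of_finite
  have h3 : gh κ A = finrank M L * gh κ A' := by
    rw [← hA']
    exact gh_mp' hM hA0
  have h0 : 0 ≤ gh κ A' := gh_nonneg hM hA0
  rw [hA'] at h1
  refine h1.trans ?_
  have h4 : (finrank M L : ℤ) * ramDeg κ M K ≤ 2 * finrank K L * gh κ A := by
    have h5 : (finrank K M : ℤ) - 1 ≤ finrank K L := by
      have h6 : finrank K M ≤ finrank K L := Submodule.finrank_le M.toSubalgebra.toSubmodule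
      have : (finrank K M : ℤ) ≤ finrank K L := by exact_mod_cast h6
      linarith
    have h7 : (ramDeg κ M K : ℤ) ≤ 2 * finrank K L * gh κ A' :=
      h2.trans (mul_le_mul_of_nonneg_right (by linarith) h0)
    calc (finrank M L : ℤ) * ramDeg κ M K ≤ finrank M L * (2 * finrank K L * gh κ A') :=
          mul_le_mul_of_nonneg_left h7 (Int.natCast_nonneg _)
      _ = 2 * finrank K L * gh κ A := by rw [h3]; ring
  linarith

end

end Pool.Agent.Lib.MP_44a246_ntTA
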