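import Mathlib
import Pool.Agent.Lib.MP_44a246_ntI.I03
import Pool.Agent.Lib.MP_44a246_ntVT.VB2
import Pool.Agent.Lib.MP_44a246_ntTA.TA03

/-!
The curve of small degree has bounded height over the extensions of bounded degree.
-/

namespace Pool.Agent.Lib.MP_44a246_ntTA

open Pool.Agent.Lib.MP_44a246_nt
open Pool.Agent.Lib.MP_44a246_ntL
open Pool.Agent.Lib.MP_44a246_ntS
open Pool.Agent.Lib.MP_44a246_ntX
open Pool.Agent.Lib.MP_44a246_ntG
open Pool.Agent.Lib.MP_44a246_ntK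
open Pool.Agent.Lib.MP_44a246_ntD
open Pool.Agent.Lib.MP_44a246_ntZ
open Pool.Agent.Lib.MP_44a246_ntC
open Pool.Agent.Lib.MP_44a246_ntI
open Pool.Agent.Lib.MP_e52354_nt
open WithZero Module Polynomial

section

variable {κ L : Type*} [Field κ] [IsAlgClosed κ] [CharZero κ] [Field L] [Algebra κ L]

/-- **The height of the curve**, from any bound for the height of the space of the rows of its
coefficients. Proof: `gh_le_blockI` (ntI/I02). -/
theorem gh_le_blockR [CharZero L] (h : IsFF κ L) {n d a b m r r₀ s : ℕ} {Λ : Type*} [Fintype Λ]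
    (ha1 : 1 ≤ a) (hab : a ≤ b) (hb6 : 6 ≤ b)
    (hm : 1 ≤ m) (h100 : 100 * (b * m) ≤ d) (hs3 : 3 ≤ s) (h100s : 100 * s ≤ d)
    (h25 : 50 * (a * s) + 5 * Fintype.card Λ ≤ 2 * d) (hrd : r ≤ m * d)
    (X : DatG κ (L := L) n d) (hF : FinVJ X)
    {A : L[X][X]} {P : MvPolynomial (Fin 3) L} (hCA : CrvG X a A)
    (hmon : A.leadingCoeff.Monic) (hP : P.IsHomogeneous a) (hPirr : Irreducible P)
    (hPA : deh P = A) {γ : Type*} [Fintype γ] {β : γ → L}
    (hβ : ∀ t, ∀ w : Place κ L, w.1 (β t) ≤ 1)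
    {η : Λ → L} (hr₀ : finrank L X.Ux ≤ r₀)
    (hrr : r₀ + (Fintype.card γ + Fintype.card Λ) ≤ r)
    (hv0 : X.row X.v ∈ X.Ux ⊔ (RB X β ⊔ LB X η)) {E : ℤ}
    (hv : ∀ {J : Finset (Fin (n + 1))} {N : ℕ},
      finrank L (X.VJ J a A ⊔ (RB X β ⊔ LB X η) : Submodule L (M3 d → L)) ≤ N →
      ht κ (X.VJ J a A ⊔ (RB X β ⊔ LB X η)) ≤
        N * (2 * gh κ A + 3 * X.Δ) + gh κ A + (s - 1) * height κ X.x + E)
    (hE : X.Δ ≤ E) (hbig : 27 * (d : ℤ) ^ 2 * E < height κ X.x)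
    (hα21 : 21 * (a * (m * gh κ A)) ≤ height κ X.x)
    (hα : 7 * (gh κ A * (d : ℤ) ^ 2) ≤ 200 * ((s : ℤ) * height κ X.x)) {Δ₂ R₂ : ℤ} (hΔ₂ : 0 ≤ Δ₂)
    (hR₂ : 0 ≤ R₂) (hRCB : ∀ J : Finset (Fin (n + 1)), ht κ (RC X J a A ⊔ RB X β) ≤
      finrank L (RC X J a A ⊔ RB X β : Submodule L (M3 d → L)) * (2 * gh κ A + 3 * Δ₂) +
        gh κ A + R₂) :
    3 * ((d : ℤ) ^ 2 * gh κ A) ≤ (d : ℤ) ^ 2 * Δ₂ + 23 * R₂ := by
  have hΔ := X.Δ_nonneg
  have hR := X.R_nonneg
  have hE0 : 0 ≤ E := hΔ.trans hE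
  have hpos : 0 < height κ X.x :=
    lt_of_le_of_lt (mul_nonneg (by positivity) hE0) hbig
  have hα0 : 0 ≤ gh κ A := gh_nonneg h hCA.irr.ne_zero
  have h150 : 150 * uI a m ≤ d := uI_150 hab hb6 hm h100
  have h100a : 100 * a ≤ d := by
    have h1 : a * 1 ≤ b * m := Nat.mul_le_mul hab hm
    omega
  have h600 : 600 ≤ d := by
    have h1 : 6 * 1 ≤ b * m := Nat.mul_le_mul hb6 hm
    omega
  have hN1 := numI1 ha1 hab hm h100 hrd
  have hN2 := numC2 h150 hN1
  have hm' : (1 : ℤ) ≤ m := by exact_mod_cast hm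
  have ha1' : (1 : ℤ) ≤ a := by exact_mod_cast ha1
  have had : (100 : ℤ) * a ≤ d := by exact_mod_cast h100a
  have hd300 : (300 : ℤ) ≤ d := by
    have : 300 ≤ d := by omega
    exact_mod_cast this
  have haαH : 21 * ((a : ℤ) * gh κ A) ≤ height κ X.x := by
    refine le_trans ?_ hα21
    have : (a : ℤ) * gh κ A ≤ a * (m * gh κ A) :=
      mul_le_mul_of_nonneg_left (le_mul_of_one_le_left hα0 hm') (Int.natCast_nonneg _)
    linarith
  have hαH : 21 * gh κ A ≤ height κ X.x := by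
    have : gh κ A ≤ a * gh κ A := le_mul_of_one_le_left hα0 ha1'
    linarith
  have hNd : 200 * ((NI r a : ℕ) : ℤ) ≤ 3 * (d : ℤ) ^ 2 := by exact_mod_cast hN2
  have hN0 : (0 : ℤ) ≤ ((NI r a : ℕ) : ℤ) := Int.natCast_nonneg _
  have m1 : 7 * ((d : ℤ) * gh κ A) ≤ 2 * height κ X.x :=
    numC4_a (by linarith) (by exact_mod_cast h100s) hpos hα
  have m2 : ((NI r a : ℕ) : ℤ) * (2 * gh κ A + 3 * X.Δ) + gh κ A + (s - 1) * height κ X.x + E ≤
      2 * s * height κ X.x :=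
    numC4_b (u := ((uI a m : ℕ) : ℤ)) (D := d) (by linarith) (by exact_mod_cast h150) hN0
      (by exact_mod_cast hN1) hNd (by exact_mod_cast hs3) hpos hα0 hαH hα hΔ hE hbig
  obtain ⟨J, hJc, hJ⟩ := exists_J X
  have hJr : J.card ≤ r₀ := by
    rw [hJc]
    exact hr₀
  have hspan : 9 * (a : ℤ) * gh κ A + 3 * a * X.Δ < height κ X.x := by
    have h1 : 3 * (a : ℤ) * X.Δ * 2 ≤ 27 * (d : ℤ) ^ 2 * E := by
      have h2 : 3 * (a : ℤ) * 2 ≤ 27 * (d : ℤ) ^ 2 := by nlinarith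
      calc 3 * (a : ℤ) * X.Δ * 2 = 3 * (a : ℤ) * 2 * X.Δ := by ring
        _ ≤ 27 * (d : ℤ) ^ 2 * E := mul_le_mul h2 hE hΔ (by positivity)
    nlinarith
  have hW : finrank L (RB X β ⊔ LB X η : Submodule L (M3 d → L)) ≤
      Fintype.card γ + Fintype.card Λ := by
    refine (Submodule.finrank_add_le_finrank_add_finrank _ _).trans (add_le_add ?_ ?_)
    · exact finrank_range_le_card _
    · exact finrank_range_le_card _
  have hfin := finrank_VJW_NI ha1 X hF hCA hmon hP hPA hW hJr hrr hspan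
  have hRC : finrank L (RC X J a A ⊔ RB X β : Submodule L (M3 d → L)) ≤ NI r a :=
    (Submodule.finrank_mono (by rw [VJ_eq]; exact sup_le_sup le_sup_left le_sup_left)).trans hfin
  -- the small space
  set R' : Submodule L (M3 d → L) := Submodule.span L {X.row X.y₁} ⊔ LB X η with hR'
  have hsup : (RC X J a A ⊔ RB X β) ⊔ R' = X.VJ J a A ⊔ (RB X β ⊔ LB X η) := by
    rw [hR', VJ_eq]
    exact sup_sup_sup_comm _ _ _ _
  have hq1 : finrank L R' ≤ 1 + Fintype.card Λ := by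
    refine (Submodule.finrank_add_le_finrank_add_finrank _ _).trans (add_le_add ?_ ?_)
    · have h3 := finrank_span_le_card (R := L) ({X.row X.y₁} : Set (M3 d → L))
      simpa using h3
    · exact finrank_range_le_card _
  have hht : ht κ ((RC X J a A ⊔ RB X β) ⊔ R') ≤ (2 * s : ℕ) * height κ X.x := by
    rw [hsup]
    have h1 := hv hfin
    push_cast
    linarith
  have hhp : height κ ![1, X.y₁, X.y] = height κ X.x := X.height_p
  have key := gh_mul_le' (a := a) (c := 2 * s) (q := 1 + Fintype.card Λ)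
    (w := 10 * (a * s) + Fintype.card Λ + 1) (d := d) h ha1
    (by omega) hP hPirr hPA hCA.irr hCA.deg hCA.zero (by rw [hhp]; exact hpos)
    (by rw [hhp]; exact m1)
    (by rw [hsup]; exact xi_mem_VJW X hCA hJ hv0) hq1 (by rw [hhp]; exact hht)
    (by
      have : 5 * a * (2 * s) = 10 * (a * s) := by ring
      omega) (by omega)
  have hle := key.trans (hRCB J)
  have hRC' : (finrank L (RC X J a A ⊔ RB X β : Submodule L (M3 d → L)) : ℤ) ≤
      ((NI r a : ℕ) : ℤ) := by exact_mod_cast hRC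
  refine numI4_c (w := ((10 * (a * s) + Fintype.card Λ : ℕ) : ℤ)) hd300 hNd hα0 hΔ₂ hR₂ hRC' ?_ ?_ hle
  · have : 5 * (10 * (a * s) + Fintype.card Λ) ≤ 2 * d := by omega
    exact_mod_cast this
  · have h1 : Fintype.card (M3 (d - (10 * (a * s) + Fintype.card Λ + 1))) = N3 (d - (10 * (a * s) + Fintype.card Λ + 1)) := card_M3 _
    rw [h1]
    have h2 := two_N3 (d - (10 * (a * s) + Fintype.card Λ + 1))
    have h3 : ((d - (10 * (a * s) + Fintype.card Λ + 1) : ℕ) : ℤ) = (d : ℤ) - ((10 * (a * s) + Fintype.card Λ : ℕ) : ℤ) - 1 := by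
      rw [Nat.cast_sub (by omega)]
      push_cast
      ring
    have h4 : 2 * ((N3 (d - (10 * (a * s) + Fintype.card Λ + 1)) : ℕ) : ℤ) =
        (((d - (10 * (a * s) + Fintype.card Λ + 1) : ℕ) : ℤ) + 1) * (((d - (10 * (a * s) + Fintype.card Λ + 1) : ℕ) : ℤ) + 2) := by
      exact_mod_cast h2
    rw [h4, h3]
    ring

end

/-- an irreducible form with the given dehomogenisation -/
theorem exists_form_le {L : Type*} [Field L] {a : ℕ} {A : L[X][X]} {P : MvPolynomial (Fin 3) L}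
    (hA : Irreducible A) (hd : A.natDegree ≠ 0) (hP : P.IsHomogeneous a) (hPA : deh P = A) :
    ∃ (a' : ℕ) (P' : MvPolynomial (Fin 3) L), 1 ≤ a' ∧ a' ≤ a ∧ P'.IsHomogeneous a' ∧
      Irreducible P' ∧ deh P' = A := by
  have hbox : Box a A := hPA ▸ deh_box hP
  obtain ⟨a', P', -, hP', hPA', hirr⟩ := exists_form hA hbox
  have hP0 : P ≠ 0 := by
    rintro rfl
    apply hA.ne_zero
    rw [← hPA]
    unfold deh
    exact map_zero _
  have hdvd : P' ∣ P := by
    refine dvd_of_deh_dvd hP' hirr ?_ hP ?_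
    · rw [hPA']
      exact hd
    · rw [hPA', hPA]
  refine ⟨a', P', ?_, ?_, hP', hirr, hPA'⟩
  · have h1 : Box a' A := hPA' ▸ deh_box hP'
    have := h1.1
    omega
  · obtain ⟨Q, rfl⟩ := hdvd
    have h1 : P' ≠ 0 := left_ne_zero_of_mul hP0
    have h2 : Q ≠ 0 := right_ne_zero_of_mul hP0
    rw [← hP.totalDegree hP0, MvPolynomial.totalDegree_mul_of_isDomain h1 h2,
      hP'.totalDegree h1]
    exact Nat.le_add_right _ _

/-- numbers: the height of the curve in terms of the height of the point -/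
theorem numTA1 {a b m g H d q : ℤ} (ha0 : 0 ≤ a) (hab : a ≤ b) (hm : 1 ≤ m) (hq : 3 ≤ q)
    (hb : 1 ≤ b) (hd : 100 * (b * m * q) ≤ d) (hg : 0 ≤ g) (hH : 0 < H)
    (h : 7 * (g * d ^ 2) ≤ 200 * (q * H)) : 21 * (a * (m * g)) ≤ H := by
  have hbm : 1 ≤ b * m := by nlinarith
  have hbmq : b * m * q ≤ d := by nlinarith
  have hd0 : 0 < d := by nlinarith
  have h1 : a * (m * g) ≤ b * m * g := by
    have : a * (m * g) ≤ b * (m * g) := mul_le_mul_of_nonneg_right hab (by positivity)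
    linarith
  -- `7 d (b m g) * (100 d) ≤ ...`
  have h2 : 7 * (b * m * g) * d ^ 2 ≤ 200 * (b * m * q) * H := by
    have h3 := mul_le_mul_of_nonneg_left h (show 0 ≤ b * m by linarith)
    linarith
  have h3 : 200 * (b * m * q) * H ≤ 2 * d * H := by nlinarith
  have h4 : 7 * (b * m * g) * d ≤ 2 * H := by
    have h5 : d * (7 * (b * m * g) * d) ≤ d * (2 * H) := by linarith
    exact le_of_mul_le_mul_left h5 hd0
  have h5 : 300 ≤ d := by nlinarith
  have h6 : 0 ≤ b * m * g := by positivity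
  nlinarith

section

variable {κ K L : Type*} [Field κ] [IsAlgClosed κ] [CharZero κ] [Field K] [CharZero K]
  [Field L] [CharZero L] [Algebra κ K] [Algebra κ L] [Algebra K L]
  [IsScalarTower κ K L] [FiniteDimensional K L]

/-- **The curve of small degree has bounded height** over the extensions of bounded degree. -/
theorem gh_le_smallI_K (hK : IsFF κ K) {n p b q : ℕ} {d : Fin p → ℕ} (X : DatC κ (L := L) n d)
    {ε : Place κ L → ℕ} (hε : (Function.support ε).Finite)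
    (hvε : ∀ w : Place κ L, (∀ j, X.v j ≠ 0 → w.1 (X.v j) = vmax w.1 X.x ^ d j) ∨ 1 ≤ ε w)
    {j : Fin p} (O : KDat κ K (X.blk j)) (hp : 1 ≤ p) (hb : 6 ≤ b) (hj : n ≤ 4 * p * d j)
    (hbn : 400 * p * (b * (4 * p + 1)) * (q + 3) ≤ n)
    (hRq : X.R + ∑ᶠ w, (ε w : ℤ) ≤ q * height κ X.x)
    (hbig : 27 * (d j : ℤ) ^ 2 * X.Δ < height κ X.x)
    (hr : 46 * finrank K L ≤ d j ^ 2) (hS : SmallI (X.blk j) b q) :
    ∃ (a : ℕ) (A : L[X][X]), a ≤ b ∧ CrvG (X.blk j) a A ∧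
      gh κ A ≤ finrank K L * ∑ᶠ v, (O.B v : ℤ) := by
  classical
  have h : IsFF κ L := hK.of_finite
  obtain ⟨a₁, A, P₁, -, hab₁, hCA₁, hmon, hP₁, hPA₁, -, hα, -⟩ := hS
  obtain ⟨a, P, ha1, haa, hP, hPirr, hPA⟩ := exists_form_le hCA₁.irr hCA₁.deg hP₁ hPA₁
  have hab : a ≤ b := haa.trans hab₁
  have hCA : CrvG (X.blk j) a A :=
    ⟨hCA₁.irr, hPA ▸ deh_box hP, hCA₁.deg, hCA₁.zero, hCA₁.der, hCA₁.one⟩
  refine ⟨a, A, hab, hCA, ?_⟩
  have hΔ := X.Δ_nonneg
  have hpos : 0 < height κ X.x := lt_of_le_of_lt (mul_nonneg (by positivity) hΔ) hbig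
  have hα0 : 0 ≤ gh κ A := gh_nonneg h hCA.irr.ne_zero
  have hdq : 100 * (b * (4 * p + 1) * (q + 3)) ≤ d j := by
    have h6 : 4 * p * (100 * (b * (4 * p + 1) * (q + 3))) ≤ 4 * p * d j := by
      refine le_trans (le_of_eq ?_) (hbn.trans hj)
      ring
    exact Nat.le_of_mul_le_mul_left h6 (by omega)
  have hdj : 100 * (b * (4 * p + 1)) ≤ d j := by
    have h6 : b * (4 * p + 1) ≤ b * (4 * p + 1) * (q + 3) := Nat.le_mul_of_pos_right _ (by omega)
    omega
  have hbd : 100 * b + p + 1 ≤ d j := by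
    have h6 : b * (4 * p + 1) = b * (4 * p) + b := by ring
    have h7 : 6 * (4 * p) ≤ b * (4 * p) := Nat.mul_le_mul_right _ hb
    omega
  have hnd : n + 1 + p ≤ (4 * p + 1) * d j := by
    have h6 : (4 * p + 1) * d j = 4 * p * d j + d j := by ring
    omega
  have hcardΛ : Fintype.card {j : Fin p // X.v j ≠ 0} ≤ p := by
    have h1 := Fintype.card_subtype_le (fun j : Fin p => X.v j ≠ 0)
    rwa [Fintype.card_fin] at h1
  have hdpb : 50 * (a * (q + 3)) + 5 * Fintype.card {j : Fin p // X.v j ≠ 0} ≤ 2 * d j := by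
    have h6 : b * (4 * p + 1) * (q + 3) = (4 * p) * (b * (q + 3)) + b * (q + 3) := by ring
    have h7 : (4 * p) * 18 ≤ (4 * p) * (b * (q + 3)) :=
      Nat.mul_le_mul_left _ (Nat.mul_le_mul hb (by omega : 3 ≤ q + 3))
    have h8 : a * (q + 3) ≤ b * (q + 3) := Nat.mul_le_mul_right _ hab
    omega
  obtain ⟨η, hη⟩ : ∃ η : {j : Fin p // X.v j ≠ 0} → L, ∀ j, η j = X.v j.1 := ⟨_, fun _ => rfl⟩
  have hr₀ : finrank L (X.blk j).Ux ≤ n + 1 := by
    refine (finrank_range_le_card (R := L)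
      (fun i : Fin (n + 1) => (X.blk j).row ((X.blk j).x i))).trans ?_
    rw [Fintype.card_fin]
  have hvrow : (X.blk j).row (X.blk j).v ∈ (X.blk j).Ux ⊔
      (RB (X.blk j) (fun t : Fin 0 => algebraMap κ L (t.elim0 : κ)) ⊔ LB (X.blk j) η) := by
    have hvj : (X.blk j).v = X.v j := rfl
    by_cases hv : X.v j = 0
    · have hrow0 : (X.blk j).row (X.blk j).v = 0 := by
        rw [hvj, hv]
        funext K
        exact map_zero _
      rw [hrow0]
      exact Submodule.zero_mem _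
    · have h6 : (X.blk j).row (X.blk j).v = X.v j • (X.blk j).lrow (η ⟨j, hv⟩) := by
        rw [hvj, hη, DatG.lrow, smul_smul, mul_inv_cancel₀ hv, one_smul]
      rw [h6]
      exact Submodule.mem_sup_right (Submodule.mem_sup_right (Submodule.smul_mem _ _
        (Submodule.subset_span ⟨⟨j, hv⟩, rfl⟩)))
  have h100s : 100 * (q + 3) ≤ d j := by
    have h1 : 1 * (q + 3) ≤ b * (4 * p + 1) * (q + 3) :=
      Nat.mul_le_mul_right _ (Nat.mul_pos (by omega) (by omega))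
    omega
  have e10 : (X.blk j).Δ = X.Δ := rfl
  have e11 : height κ (X.blk j).x = height κ X.x := rfl
  have e12 : (X.blk j).R = X.R := rfl
  have hvVJ : ∀ {J : Finset (Fin (n + 1))} {N : ℕ},
      finrank L ((X.blk j).VJ J a A ⊔ (RB (X.blk j)
        (fun t : Fin 0 => algebraMap κ L (t.elim0 : κ)) ⊔ LB (X.blk j) η) :
          Submodule L (M3 (d j) → L)) ≤ N →
      ht κ ((X.blk j).VJ J a A ⊔ (RB (X.blk j)
        (fun t : Fin 0 => algebraMap κ L (t.elim0 : κ)) ⊔ LB (X.blk j) η)) ≤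
        N * (2 * gh κ A + 3 * (X.blk j).Δ) + gh κ A +
          (((q + 3 : ℕ) : ℤ) - 1) * height κ (X.blk j).x + X.Δ := by
    intro J N hVN
    have h1 := ht_VJBL_le (X.blk j) hCA h (t := fun t => d t.1) (fun t => t.elim0)
      (fun t => by rw [hη]; exact t.2) hε (fun w => by
        rcases hvε w with h1 | h1
        · exact Or.inl fun t => by rw [hη]; exact h1 t.1 t.2
        · exact Or.inr h1) hVN
    rw [e12, e11] at h1
    rw [e11]
    push_cast
    linarith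
  have hΔ₂ : 0 ≤ (finrank K L : ℤ) * ∑ᶠ v, (O.B v : ℤ) :=
    mul_nonneg (Int.natCast_nonneg _) (finsum_nonneg fun v => Int.natCast_nonneg _)
  have hα21 : 21 * ((a : ℤ) * (((4 * p + 1 : ℕ) : ℤ) * gh κ A)) ≤ height κ (X.blk j).x := by
    refine numTA1 (b := b) (q := ((q + 3 : ℕ) : ℤ)) (d := d j) (Int.natCast_nonneg _)
      (by exact_mod_cast hab) (by exact_mod_cast (by omega : 1 ≤ 4 * p + 1))
      (by exact_mod_cast (by omega : 3 ≤ q + 3)) (by exact_mod_cast (by omega : 1 ≤ b))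
      (by exact_mod_cast hdq) hα0 hpos hα
  have key := gh_le_blockR h (m := 4 * p + 1) (r := n + 1 + p) (r₀ := n + 1) (s := q + 3)
    (Λ := {j : Fin p // X.v j ≠ 0}) (γ := Fin 0) ha1 hab hb (by omega) hdj (by omega) h100s
    hdpb hnd (X.blk j) (finVJ h (X.blk j)) hCA hmon hP hPirr hPA
    (β := fun t : Fin 0 => algebraMap κ L (t.elim0 : κ)) (fun t => t.elim0) (η := η) hr₀
    (by rw [Fintype.card_fin]; omega) hvrow (E := X.Δ) hvVJ le_rfl hbig hα21 hα hΔ₂
    (R₂ := 2 * finrank K L * gh κ A) (by positivity)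
    (fun J => ht_RCB_K hK O hCA.box hCA.one J (fun t : Fin 0 => (t.elim0 : κ)))
  have hr' : 46 * (finrank K L : ℤ) ≤ (d j : ℤ) ^ 2 := by exact_mod_cast hr
  have h8 : 46 * (finrank K L : ℤ) * gh κ A ≤ (d j : ℤ) ^ 2 * gh κ A :=
    mul_le_mul_of_nonneg_right hr' hα0
  have hd0 : (0 : ℤ) < (d j : ℤ) ^ 2 := by
    have : (1 : ℤ) ≤ d j := by exact_mod_cast (by omega : 1 ≤ d j)
    positivity
  have h9 : (d j : ℤ) ^ 2 * gh κ A ≤ (d j : ℤ) ^ 2 * (finrank K L * ∑ᶠ v, (O.B v : ℤ)) := by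
    have h10 : 0 ≤ (d j : ℤ) ^ 2 * gh κ A := by positivity
    linarith
  exact le_of_mul_le_mul_left h9 hd0

end

end Pool.Agent.Lib.MP_44a246_ntTA
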