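import Mathlib
import Pool.Agent.Lib.MP_44a246_ntTA.TA04
import Pool.Agent.Lib.MP_44a246_ntTK.OverK
import Pool.Agent.Lib.MP_44a246_ntUV.UV05a

/-!
The curve of small degree has bounded height over the extensions of bounded degree: the
certificate.
-/

namespace Pool.Agent.Lib.MP_44a246_ntTA

open Pool.Agent.Lib.MP_44a246_nt
open Pool.Agent.Lib.MP_44a246_ntL
open Pool.Agent.Lib.MP_44a246_ntS
open Pool.Agent.Lib.MP_44a246_ntX
open Pool.Agent.Lib.MP_44a246_ntG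
open Pool.Agent.Lib.MP_44a246_ntK
open Pool.Agent.Lib.MP_44a246_ntI (SmallI)
open Pool.Agent.Lib.MP_44a246_ntO (one_le_finrank_aux)
open Pool.Agent.Lib.MP_44a246_ntSH
open Pool.Agent.Lib.MP_44a246_ntUV
open Pool.Agent.Lib.MP_44a246_ntTK
open Pool.Agent.Lib.MP_e52354_nt
open WithZero Module Polynomial

section

variable {κ K L : Type*} [Field κ] [IsAlgClosed κ] [CharZero κ] [Field K] [CharZero K]
  [Field L] [CharZero L] [Algebra κ K] [Algebra κ L] [Algebra K L]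
  [IsScalarTower κ K L] [FiniteDimensional K L]

/-- the data of one block over `K` -/
noncomputable def kdat {n p : ℕ} {d : Fin p → ℕ} (X : DatSC κ (L := L) n d)
    {a₀ : Fin p → (Fin (n + 1) →₀ ℕ) → K} (hXa : X.a = fun j I => algebraMap K L (a₀ j I))
    (O : OverK κ K X) (hOδ : ∀ w : Place κ L, X.δ w = ramIdx K w.1 * O.δ (below K w))
    (j : Fin p) : KDat κ K (X.toDatC.blk j) where
  a := a₀ j
  D := fun I => O.D (j, I)
  E := O.E
  B := O.δ
  hB := O.hδ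
  ha := fun I => congrFun (congrFun hXa j) I
  hD := fun I y => O.hD (j, I) y
  hE := O.hE
  hDB := fun I hI => O.hDδ (j, I) hI
  hδ := hOδ

omit [CharZero L] in
theorem OverK_Δ (hK : IsFF κ K) {n p : ℕ} {d : Fin p → ℕ} (X : DatSC κ (L := L) n d)
    (O : OverK κ K X) (hOδ : ∀ w : Place κ L, X.δ w = ramIdx K w.1 * O.δ (below K w)) :
    finrank K L * ∑ᶠ v, (O.δ v : ℤ) = X.toDatC.Δ := by
  rw [← (sum_ram_below (L := L) hK O.hδ).2]
  unfold DatC.Δ
  exact finsum_congr fun w => by rw [hOδ]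

/-- **The certificate of the curve of small degree** over the extensions of bounded degree. -/
theorem certV_of_smallI_K (hK : IsFF κ K) {n p b q : ℕ} {d : Fin p → ℕ}
    (X : DatSC κ (L := L) n d)
    {a₀ : Fin p → (Fin (n + 1) →₀ ℕ) → K} (hXa : X.a = fun j I => algebraMap K L (a₀ j I))
    (O : OverK κ K X) (hOδ : ∀ w : Place κ L, X.δ w = ramIdx K w.1 * O.δ (below K w))
    {ε : Place κ L → ℕ} (hε : (Function.support ε).Finite)
    (hvε : ∀ w : Place κ L, (∀ j, X.toDatC.v j ≠ 0 →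
      w.1 (X.toDatC.v j) = vmax w.1 X.x ^ d j) ∨ 1 ≤ ε w)
    {j : Fin p} (hb : 6 ≤ b) (hj : n ≤ 4 * p * d j)
    (hbn : 400 * p * (b * (4 * p + 1)) * (q + 3) ≤ n)
    (hRq : X.toDatC.R + ∑ᶠ w, (ε w : ℤ) ≤ q * height κ X.x)
    (hr : 46 * finrank K L ≤ d j ^ 2) (hS : SmallI (X.toDatC.blk j) b q)
    (hbig : (27 * (d j : ℤ) ^ 2 + 2 * (9 * b + 6 * (n + 1))) * X.toDatC.Δ < height κ X.x) :
    CertV κ b 1 (3 * X.toDatC.Δ) X.x := by
  have h : IsFF κ L := hK.of_finite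
  have hΔ : 0 ≤ X.toDatC.Δ := X.toDatC.Δ_nonneg
  have hp : 1 ≤ p := by
    have := j.2
    omega
  have h1 : 0 ≤ 2 * (9 * (b : ℤ) + 6 * (n + 1)) * X.toDatC.Δ := mul_nonneg (by positivity) hΔ
  have h2 : 0 ≤ 27 * (d j : ℤ) ^ 2 * X.toDatC.Δ := mul_nonneg (by positivity) hΔ
  have h3 : (27 * (d j : ℤ) ^ 2 + 2 * (9 * b + 6 * (n + 1))) * X.toDatC.Δ =
      27 * (d j : ℤ) ^ 2 * X.toDatC.Δ + 2 * (9 * (b : ℤ) + 6 * (n + 1)) * X.toDatC.Δ := by ring
  rw [h3] at hbig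
  obtain ⟨a, A, hab, hA, hgA⟩ := gh_le_smallI_K hK X.toDatC hε hvε (kdat X hXa O hOδ j) hp hb hj hbn
    hRq (by linarith) hr hS
  have hgA' : gh κ A ≤ X.toDatC.Δ := hgA.trans (le_of_eq (OverK_Δ hK X O hOδ))
  have hx0 : X.x ≠ 0 := by
    intro h1
    have h2 := X.h0
    rw [h1] at h2
    simp at h2
  have h4 : (9 * (b : ℤ) + 6 * (n + 1)) * (X.toDatC.Δ + X.toDatC.Δ) < height κ X.x := by
    have h5 : (9 * (b : ℤ) + 6 * (n + 1)) * (X.toDatC.Δ + X.toDatC.Δ) =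
        2 * (9 * (b : ℤ) + 6 * (n + 1)) * X.toDatC.Δ := by ring
    linarith
  have key := certV_of_curve h X (N := 1) (fun Q hQ _ => one_le_finrank_aux hx0 hQ) hA hab hgA' h4
  exact CertV.mono le_rfl (by linarith) key

end

end Pool.Agent.Lib.MP_44a246_ntTA
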