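import Mathlib
import Pool.Agent.Lib.MP_44a246_ntMB.MB70
import Pool.Agent.Lib.MP_44a246_ntTK.TK21
import Pool.Agent.Lib.MP_44a246_ntSH.CW10
import Pool.Agent.Lib.MP_44a246_ntTA.TA16

/-!
# T5: Vojta's inequality for the points of bounded degree, for large `n`
-/

namespace Pool.Agent.Lib.MP_44a246_ntTA

open Pool.Agent.Lib.MP_e52354_nt
open Pool.Agent.Lib.MP_44a246_nt
open Pool.Agent.Lib.MP_44a246_ntL
open Pool.Agent.Lib.MP_44a246_ntSP
open Pool.Agent.Lib.MP_44a246_ntUV
open Pool.Agent.Lib.MP_44a246_ntTK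
open Pool.Agent.Lib.MP_44a246_ntSH (algInd_jexpo)
open WithZero MvPolynomial Module

universe u v w

/-- **Vojta's inequality for the points of degree at most `r`**: for `n` large compared to the
number `p` of the forms, `r` and `1 / ε`, all complete intersections `X = {F_j = 0, j ∈ A}` of
dimension at least one and all divisors `{F_j = 0, j ∉ A}`, the coefficients being algebraically
independent over the rational numbers. -/
theorem deg_large (p r : ℕ) {ε : ℝ} (hε : 0 < ε) : ∃ n₀ : ℕ,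
    ∀ (n : ℕ) (d : Fin p → ℕ) (A : Finset (Fin p)), n₀ ≤ n → (∀ j, 1 ≤ d j) → A.card < n →
    ∀ (κ : Type u) (K : Type v) [Field κ] [IsAlgClosed κ] [CharZero κ] [Field K] [CharZero K]
      [Algebra κ K] (_ : Cardinal.aleph0 ≤ Algebra.trdeg ℚ κ) (t : K) (_ : Transcendental κ t)
      (_ : FiniteDimensional (IntermediateField.adjoin κ {t}) K)
      (F : Fin p → MvPolynomial (Fin (n + 1)) K) (_ : ∀ j, (F j).IsHomogeneous (d j))
      (_ : AlgebraicIndependent ℚ
        (fun I : {I : Fin p × (Fin (n + 1) →₀ ℕ) // I.2.degree = d I.1} =>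
          (F I.1.1).coeff I.1.2))
      (S : Set (Place κ K)) (_ : S.Finite), DegAt.{u, v, w} κ d A F S r ε := by
  obtain ⟨n₀, h⟩ := level_KU.{u, v, w} p (2 * r) r ε hε
  refine ⟨n₀, fun n d A hn hd1 hA κ K _ _ _ _ _ _ htr t ht hfin F hF hgen S hS => ?_⟩
  have hK : IsFF κ K := ⟨t, ht, hfin⟩
  rcases le_or_gt (∑ j, d j) (n + 1) with hd | hd
  · exact degAt_trivial hK hd1 hA hF hε hd
  refine DegTopAt.degAt hK hF (degTopAt_of_level hK (Pool.Agent.Lib.MP_44a246_ntMB.myp κ) hd1 hA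
    hF hgen hS hε ?_)
  obtain ⟨B, C, hBC⟩ := h n d hn hd1 (by omega) κ K hK htr (fun j I => (F j).coeff I)
    (algInd_jexpo hgen)
  refine ⟨B, C, ?_⟩
  intro L _ _ _ _ _ hr x hx htop T hT hineq
  have hL : IsFF κ L := hK.of_finite
  have hh0 : 0 ≤ height κ x := hL.height_nonneg hx
  refine hBC L hr x hx htop T (fun w hw j hj => ?_) ?_ hineq
  · rw [← aeval_eq_Fval (F j) (hF j) x] at hj ⊢
    exact hT w hw j hj
  · refine (hK.ram_point x hx htop).trans (mul_le_mul_of_nonneg_right ?_ hh0)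
    have h1 : (finrank K L : ℤ) ≤ r := by exact_mod_cast hr
    push_cast
    linarith

end Pool.Agent.Lib.MP_44a246_ntTA
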