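import Mathlib
import Pool.Agent.Lib.MP_44a246_ntVT.VF02
import Pool.Agent.Lib.MP_44a246_ntTA.TA17

/-!
# T5: Vojta's inequality for the points of bounded degree, for all but finitely many types of
complete intersections
-/

namespace Pool.Agent.Lib.MP_44a246_ntTA

open Pool.Agent.Lib.MP_e52354_nt
open Pool.Agent.Lib.MP_44a246_nt
open Pool.Agent.Lib.MP_44a246_ntL
open Pool.Agent.Lib.MP_44a246_ntSP
open Pool.Agent.Lib.MP_44a246_ntVT (VojtaAt vojtaAt_of_large)
open WithZero MvPolynomial Module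

universe u v w

/-- from the points over the extensions with `R ≤ q h` to the points of degree at most `r` -/
theorem degAt_of_vojtaAt {κ : Type u} {K : Type v} [Field κ] [IsAlgClosed κ] [CharZero κ]
    [Field K] [Algebra κ K] (hK : IsFF κ K) {n p q r : ℕ} {d : Fin p → ℕ} {A : Finset (Fin p)}
    {F : Fin p → MvPolynomial (Fin (n + 1)) K} (hF : ∀ j, (F j).IsHomogeneous (d j))
    {S : Set (Place κ K)} {ε : ℝ} (hq : 2 * r ≤ q + 2)
    (h : VojtaAt.{u, v, w} κ d A F S q ε) : DegAt.{u, v, w} κ d A F S r ε := by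
  refine DegTopAt.degAt hK hF ?_
  obtain ⟨G, hG1, hG2, C, hC⟩ := h
  refine ⟨G, hG1, hG2, r * C, ?_⟩
  intro L _ _ _ _ _ x hr hx htop hFx
  have hL : IsFF κ L := hK.of_finite
  have hh0 : 0 ≤ height κ x := hL.height_nonneg hx
  refine (hC L x hx hFx ?_).imp (fun h1 => h1.trans ?_) id
  · refine (hK.ram_point x hx htop).trans (mul_le_mul_of_nonneg_right ?_ hh0)
    have h1 : (finrank K L : ℤ) ≤ r := by exact_mod_cast hr
    have h2 : 2 * (r : ℤ) ≤ q + 2 := by exact_mod_cast hq
    linarith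
  · have h1 : C * finrank K L ≤ r * C := by
      rw [mul_comm r C]
      exact Nat.mul_le_mul_left _ hr
    have h2 : (C : ℝ) * finrank K L ≤ ((r * C : ℕ) : ℝ) := by exact_mod_cast h1
    linarith

/-- the type of `X` -/
private theorem mem_types {p n₀ r n : ℕ} {d : Fin p → ℕ} {A : Finset (Fin p)} (hn : n < n₀)
    (hA : ∀ j ∈ A, d j ≤ 2 * n + 2 * r) :
    (n, A, fun j => if j ∈ A then d j else 0) ∈ (Finset.range n₀) ×ˢ
      ((Finset.univ : Finset (Finset (Fin p))) ×ˢ
        (Fintype.piFinset fun _ : Fin p => Finset.range (2 * n₀ + 2 * r + 1))) := by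
  rw [Finset.mem_product, Finset.mem_product, Finset.mem_range, Fintype.mem_piFinset]
  refine ⟨hn, Finset.mem_univ _, fun j => ?_⟩
  show (if j ∈ A then d j else 0) ∈ Finset.range (2 * n₀ + 2 * r + 1)
  rw [Finset.mem_range]
  split_ifs with h
  · have := hA j h
    omega
  · omega

/-- **Vojta's inequality for the points of degree at most `r`**, for all but finitely many types
`(n; A; d_j, j ∈ A)` of complete intersections `X` of dimension at least one and all divisors. -/
theorem deg_all (p r : ℕ) {ε : ℝ} (hε : 0 < ε) :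
    ∃ E : Finset (ℕ × Finset (Fin p) × (Fin p → ℕ)),
      (∀ e ∈ E, ∀ j ∈ e.2.1, e.2.2 j ≤ 2 * e.1 + 2 * r) ∧
      ∀ (n : ℕ) (d : Fin p → ℕ) (A : Finset (Fin p)), (∀ j, 1 ≤ d j) → A.card < n →
        (n, A, fun j => if j ∈ A then d j else 0) ∉ E →
      ∀ (κ : Type u) (K : Type v) [Field κ] [IsAlgClosed κ] [CharZero κ] [Field K] [CharZero K]
        [Algebra κ K] (_ : Cardinal.aleph0 ≤ Algebra.trdeg ℚ κ) (t : K) (_ : Transcendental κ t)
        (_ : FiniteDimensional (IntermediateField.adjoin κ {t}) K)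
        (F : Fin p → MvPolynomial (Fin (n + 1)) K) (_ : ∀ j, (F j).IsHomogeneous (d j))
        (_ : AlgebraicIndependent ℚ
          (fun I : {I : Fin p × (Fin (n + 1) →₀ ℕ) // I.2.degree = d I.1} =>
            (F I.1.1).coeff I.1.2))
        (S : Set (Place κ K)) (_ : S.Finite), DegAt.{u, v, w} κ d A F S r ε := by
  classical
  obtain ⟨n₀, hlarge⟩ := deg_large.{u, v, w} p r hε
  refine ⟨((Finset.range n₀) ×ˢ ((Finset.univ : Finset (Finset (Fin p))) ×ˢ
        (Fintype.piFinset fun _ : Fin p => Finset.range (2 * n₀ + 2 * r + 1)))).filter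
      (fun e => ∀ j ∈ e.2.1, e.2.2 j ≤ 2 * e.1 + 2 * r),
    fun e he => (Finset.mem_filter.1 he).2, ?_⟩
  intro n d A hd1 hA hE κ K _ _ _ _ _ _ htr t ht hfin F hF hgen S hS
  rcases le_or_gt n₀ n with hn | hn
  · exact hlarge n d A hn hd1 hA κ K htr t ht hfin F hF hgen S hS
  have hK : IsFF κ K := ⟨t, ht, hfin⟩
  -- the type is not in the finite set: one of the degrees is large
  have hj : ∃ j ∈ A, 2 * n + 2 * r < d j := by
    by_contra hcon
    push Not at hcon
    apply hE
    rw [Finset.mem_filter]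
    refine ⟨mem_types hn hcon, fun j hjA => ?_⟩
    show (if j ∈ A then d j else 0) ≤ 2 * n + 2 * r
    rw [if_pos hjA]
    exact hcon j hjA
  obtain ⟨j, hj, hjd⟩ := hj
  exact degAt_of_vojtaAt hK hF (q := 2 * r) (by omega)
    (vojtaAt_of_large ht hfin hd1 hA hF hgen S hj hjd hε)

end Pool.Agent.Lib.MP_44a246_ntTA
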