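import Mathlib
import Pool.Agent.Lib.MP_44a246_ntCE.CE60
import Pool.Agent.Lib.MP_44a246_ntTA.TA18

/-!
# T5: Vojta's inequality for the points of bounded degree, over all algebraically closed fields of
constants
-/

namespace Pool.Agent.Lib.MP_44a246_ntTA

open Pool.Agent.Lib.MP_e52354_nt
open Pool.Agent.Lib.MP_44a246_nt
open Pool.Agent.Lib.MP_44a246_ntL
open WithZero MvPolynomial Module

universe u v w

/-- **Vojta's inequality for the points of degree at most `r`**, for all but finitely many types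
`(n; A; d_j, j ∈ A)` of complete intersections `X` of dimension at least one and all divisors, over
every algebraically closed field of constants of characteristic zero. -/
theorem deg_all_const (p r : ℕ) {ε : ℝ} (hε : 0 < ε) :
    ∃ E : Finset (ℕ × Finset (Fin p) × (Fin p → ℕ)),
      (∀ e ∈ E, ∀ j ∈ e.2.1, e.2.2 j ≤ 2 * e.1 + 2 * r) ∧
      ∀ (n : ℕ) (d : Fin p → ℕ) (A : Finset (Fin p)), (∀ j, 1 ≤ d j) → A.card < n →
        (n, A, fun j => if j ∈ A then d j else 0) ∉ E →
      ∀ (κ : Type u) (K : Type v) [Field κ] [IsAlgClosed κ] [CharZero κ] [Field K] [CharZero K]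
        [Algebra κ K] (t : K) (_ : Transcendental κ t)
        (_ : FiniteDimensional (IntermediateField.adjoin κ {t}) K)
        (F : Fin p → MvPolynomial (Fin (n + 1)) K) (_ : ∀ j, (F j).IsHomogeneous (d j))
        (_ : AlgebraicIndependent ℚ
          (fun I : {I : Fin p × (Fin (n + 1) →₀ ℕ) // I.2.degree = d I.1} =>
            (F I.1.1).coeff I.1.2))
        (S : Set (Place κ K)) (_ : S.Finite), DegAt.{u, v, w} κ d A F S r ε := by
  obtain ⟨E, hE, h⟩ := deg_all.{u, u, u} p r hε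
  refine ⟨E, hE, fun n d A hd1 hA hnE κ K _ _ _ _ _ _ t ht hfin F hF hgen S hS => ?_⟩
  have hw := Pool.Agent.Lib.MP_44a246_ntCE.wrap_all.{u, v, w} (n := n) (p := p) (d := d) (A := A)
    (cond := fun m _ _ _ => m ≤ r) (hcond := fun _ _ hm => hm)
    (concl := fun C N R _ h => (((∑ j, d j : ℕ) : ℝ) - n - 1 - ε) * h ≤ N + R + C)
    (hconcl := fun {C N N' R R' m h} hN hR hc => by
      have h1 : (N' : ℝ) ≤ N := by exact_mod_cast hN
      have h2 : (R' : ℝ) ≤ R := by exact_mod_cast hR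
      linarith)
    (H := fun κ K _ _ _ _ _ _ htr hK F hF hgen S hS => by
      obtain ⟨t, ht, hfin⟩ := hK
      obtain ⟨G, hG1, hG2, C, hC⟩ := h n d A hd1 hA hnE κ K htr t ht hfin F hF hgen S hS
      exact ⟨G, hG1, hG2, C, fun L _ _ _ _ _ x hx hFx hr => hC L x hr hx hFx⟩)
    κ K ⟨t, ht, hfin⟩ F hF hgen S hS
  obtain ⟨G, hG1, hG2, C, hC⟩ := hw
  exact ⟨G, hG1, hG2, C, fun L _ _ _ _ _ x hr hx hFx => hC L x hx hFx hr⟩

end Pool.Agent.Lib.MP_44a246_ntTA
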